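import Mathlib

/-!
# 3-torsion in the free alternative ring

In every alternative ring the explicit element `tor a b c d e x` (a multilinear expression of
degree 6) satisfies `3 • tor a b c d e x = 0` (theorem `tor3`).  It does not vanish at the first
six free generators of the free alternative ring: we map them to an explicit commutative
49-dimensional alternative algebra over a ring in which `3 = 0`.
-/

set_option autoImplicit false
set_option maxRecDepth 100000
set_option linter.unusedSimpArgs false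
set_option linter.unusedSectionVars false

namespace Pool.Agent.Results.MP_2692c1_al.FreeAlternativeTorsion

universe u v w

/-! ### The free alternative algebra -/

/-- The free nonassociative `Φ`-algebra on `X`: the `Φ`-linear combinations of the nonempty
bracketed words in `X`. -/
abbrev FreeNA (Φ : Type u) [CommRing Φ] (X : Type v) : Type (max u v) :=
  MonoidAlgebra Φ (FreeMagma X)

/-- The ideal generated by all `(f,f,g)` and `(g,f,f)`: the smallest `Φ`-submodule which is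
closed under left and right multiplication by arbitrary elements and which contains
`(ff)g - f(fg)` and `(gf)f - g(ff)` for all `f`, `g`. -/
noncomputable def altIdeal (Φ : Type u) [CommRing Φ] (X : Type v) : Submodule Φ (FreeNA Φ X) :=
  sInf {I | (∀ i ∈ I, ∀ a : FreeNA Φ X, a * i ∈ I ∧ i * a ∈ I) ∧
    ∀ f g : FreeNA Φ X, (f * f) * g - f * (f * g) ∈ I ∧ (g * f) * f - g * (f * f) ∈ I}

/-- (The `Φ`-module underlying) the free alternative `Φ`-algebra `Alt_Φ[X]`. -/
abbrev Alt (Φ : Type u) [CommRing Φ] (X : Type v) : Type (max u v) :=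
  FreeNA Φ X ⧸ altIdeal Φ X

/-! ### The identity `3 • tor = 0` -/

section Ring
variable {R : Type*} [NonUnitalNonAssocRing R]

/-- associator -/
def as (a b c : R) : R := (a * b) * c - a * (b * c)
/-- commutator -/
def cm (a b : R) : R := a * b - b * a
/-- Kleinfeld's function -/
def kf (a b c d : R) : R := as (a * b) c d - b * as a c d - as b c d * a

theorem as_add1 (a a' b c : R) : as (a + a') b c = as a b c + as a' b c := by
  simp only [as, add_mul]; abel
theorem as_add2 (a b b' c : R) : as a (b + b') c = as a b c + as a b' c := by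
  simp only [as, add_mul, mul_add]; abel
theorem as_add3 (a b c c' : R) : as a b (c + c') = as a b c + as a b c' := by
  simp only [as, add_mul, mul_add]; abel
theorem as_sub1 (a a' b c : R) : as (a - a') b c = as a b c - as a' b c := by
  simp only [as, sub_mul, mul_sub]; abel
theorem as_sub2 (a b b' c : R) : as a (b - b') c = as a b c - as a b' c := by
  simp only [as, sub_mul, mul_sub]; abel
theorem as_sub3 (a b c c' : R) : as a b (c - c') = as a b c - as a b c' := by
  simp only [as, sub_mul, mul_sub]; abel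

/-- Teichmüller's identity -/
theorem teich (a b c d : R) : as (a * b) c d - as a (b * c) d + as a b (c * d)
    = a * as b c d + as a b c * d := by
  simp only [as, sub_mul, mul_sub]; abel

variable (hl : ∀ a b : R, (a * a) * b = a * (a * b)) (hr : ∀ a b : R, (b * a) * a = b * (a * a))
include hl hr

theorem as12 (a b c : R) : as b a c = - as a b c := by
  have h0 : ∀ u v : R, as u u v = 0 := fun u v => by simp [as, hl]
  have h := h0 (a + b) c
  rw [as_add1, as_add2, as_add2, h0, h0] at h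
  linear_combination (norm := abel) h

theorem as23 (a b c : R) : as a c b = - as a b c := by
  have h0 : ∀ u v : R, as v u u = 0 := fun u v => by simp [as, hr]
  have h := h0 (b + c) a
  rw [as_add2, as_add3, as_add3, h0, h0] at h
  linear_combination (norm := abel) h

theorem as_cyc (a b c : R) : as b c a = as a b c := by
  rw [as23 hl hr b a c, as12 hl hr a b c, neg_neg]

theorem kf34 (a b c d : R) : kf a b d c = - kf a b c d := by
  simp only [kf, as23 hl hr _ c d]
  simp only [mul_neg, neg_mul]; abel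

theorem kf_cyc (a b c d : R) : kf d a b c = - kf a b c d := by
  have h1 := teich a b c d
  have h2 := teich b c d a
  have e1 : as a (b * c) d = as (b * c) d a := (as_cyc hl hr a (b*c) d).symm
  have e2 : as a b (c * d) = as (c * d) a b := as_cyc hl hr (c*d) a b
  have e3 : as b (c * d) a = as (c * d) a b := (as_cyc hl hr b (c*d) a).symm
  have e4 : as b c (d * a) = as (d * a) b c := as_cyc hl hr (d*a) b c
  have e5 : as d b c = as b c d := (as_cyc hl hr d b c).symm
  have e6 : as c d a = as a c d := as_cyc hl hr a c d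
  rw [e1, e2] at h1
  rw [e3, e4, e6] at h2
  simp only [kf, e5]
  linear_combination (norm := abel) h1 + h2

theorem kf12 (a b c d : R) : kf b a c d = - kf a b c d := by
  have h1 := kf_cyc hl hr a b c d
  have h2 := kf_cyc hl hr d a b c
  have h3 := kf34 hl hr c d a b
  have h4 := kf_cyc hl hr d b a c
  have h5 := kf_cyc hl hr c d b a
  have h6 := kf_cyc hl hr b a c d
  have h7 := kf_cyc hl hr d b a c
  linear_combination (norm := abel) h6 - h7 + h3 - h2 + h1

theorem kf23 (a b c d : R) : kf a c b d = - kf a b c d := by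
  have h1 := kf_cyc hl hr a b c d
  have h2 := kf34 hl hr d a b c
  have h3 := kf_cyc hl hr a c b d
  linear_combination (norm := abel) h3 - h2 + h1

/-- (E1) -/
theorem E1 (u c d e : R) : (3:ℤ) • kf u c d e
    = cm u (as c d e) - cm c (as u d e) + cm d (as u c e) - cm e (as u c d) := by
  have t := teich u c d e
  have k1 : as (u * c) d e = kf u c d e + c * as u d e + as c d e * u := by
    simp only [kf]; abel
  have k2 : as (c * d) u e = kf c d u e + d * as c u e + as d u e * c := by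
    simp only [kf]; abel
  have k3 : as (d * e) u c = kf d e u c + e * as d u c + as e u c * d := by
    simp only [kf]; abel
  have s1 : as u (c * d) e = - as (c * d) u e := as12 hl hr (c*d) u e
  have s2 : as u c (d * e) = as (d * e) u c := as_cyc hl hr (d*e) u c
  have f1 : kf c d u e = kf u c d e := by
    have a1 := kf12 hl hr u c d e
    have a2 := kf23 hl hr c u d e
    linear_combination (norm := abel) a2 - a1
  have f2 : kf d e u c = kf u c d e := by
    have a1 := kf_cyc hl hr u c d e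
    have a2 := kf_cyc hl hr e u c d
    linear_combination (norm := abel) a2 - a1
  have g1 : as c u e = - as u c e := as12 hl hr u c e
  have g2 : as d u e = - as u d e := as12 hl hr u d e
  have g3 : as d u c = as u c d := (as_cyc hl hr d u c).symm
  have g4 : as e u c = as u c e := (as_cyc hl hr e u c).symm
  rw [s1, s2, k1, k2, k3, f1, f2, g1, g2, g3, g4] at t
  simp only [mul_neg, neg_mul, neg_neg, neg_add] at t
  simp only [cm]
  linear_combination (norm := skip) t
  abel_nf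

/-- (E2) -/
theorem E2 (a b c d : R) : kf a b c d = as (cm a b) c d + as (cm c d) a b := by
  have e := E1 hl hr a b c d
  have k1 := kf12 hl hr a b c d
  have k2 : kf c d a b = kf a b c d := by
    have a1 := kf_cyc hl hr a b c d
    have a2 := kf_cyc hl hr d a b c
    linear_combination (norm := abel) a2 - a1
  have k3 := kf12 hl hr c d a b
  have g1 : as c a b = as a b c := (as_cyc hl hr c a b).symm
  have g2 : as d a b = as a b d := (as_cyc hl hr d a b).symm
  have m1 : as (a * b) c d = kf a b c d + b * as a c d + as b c d * a := by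
    simp only [kf]; abel
  have m2 : as (b * a) c d = kf b a c d + a * as b c d + as a c d * b := by
    simp only [kf]; abel
  have m3 : as (c * d) a b = kf c d a b + d * as c a b + as d a b * c := by
    simp only [kf]; abel
  have m4 : as (d * c) a b = kf d c a b + c * as d a b + as c a b * d := by
    simp only [kf]; abel
  rw [g1, g2] at m3 m4
  simp only [cm] at e ⊢
  rw [as_sub1, as_sub1, m1, m2, m3, m4]
  linear_combination (norm := skip) (-1:ℤ) • e + k1 + k3 - (2:ℤ) • k2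
  abel_nf

omit hl hr in
theorem cm_add2 (a b b' : R) : cm a (b + b') = cm a b + cm a b' := by
  simp only [cm, add_mul, mul_add]; abel

theorem jac (a b c : R) : cm (cm a b) c + cm (cm b c) a + cm (cm c a) b = (6:ℤ) • as a b c := by
  have h1 := as12 hl hr a b c
  have h2 := as23 hl hr a b c
  have h3 := as_cyc hl hr a b c
  have h4 := as_cyc hl hr b c a
  have h5 := as12 hl hr c a b
  have h6 := as12 hl hr b c a
  have e1 : as c b a = - as a b c := by rw [h6, h3]
  have e2 : as c a b = as a b c := by rw [h4, h3]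
  have key : cm (cm a b) c + cm (cm b c) a + cm (cm c a) b
      = as a b c - as b a c + as b c a - as c b a + as c a b - as a c b := by
    simp only [cm, as, sub_mul, mul_sub]; abel
  rw [key, h1, h2, h3, e1, e2]
  abel

/-- (I3) -/
theorem I3 (c p q : R) : cm c (p * q) = cm c p * q + p * cm c q - (3:ℤ) • as c p q := by
  have h1 := as12 hl hr c p q
  have h2 := as_cyc hl hr c p q
  have key : cm c (p * q) = cm c p * q + p * cm c q + as p c q - as c p q - as p q c := by
    simp only [cm, as, sub_mul, mul_sub]; abel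
  rw [key, h1, h2]
  abel

/-- the correction function h' -/
def hp (q x c d e : R) : R :=
  kf (q * x) c d e - as (as c d e) q x - kf x c d e * q
    - (as c (as x d e) q - as d (as x c e) q + as e (as x c d) q)
    - kf (cm q x) c d e + (2:ℤ) • as q x (as c d e) - x * kf q c d e

/-- the summand -/
def sm (q x c d e : R) : R :=
  x * cm c (as q d e) - cm c (x * as q d e) - cm c (as (cm d e) q x) - as x d e * cm c q

theorem L3 (q x c d e : R) :
    (3:ℤ) • hp q x c d e = sm q x c d e - sm q x d c e + sm q x e c d := by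
  have e1 := E1 hl hr (q * x) c d e
  have k1 : as (q * x) d e = kf q x d e + x * as q d e + as x d e * q := by
    simp only [kf]; abel
  have k2 : as (q * x) c e = kf q x c e + x * as q c e + as x c e * q := by
    simp only [kf]; abel
  have k3 : as (q * x) c d = kf q x c d + x * as q c d + as x c d * q := by
    simp only [kf]; abel
  rw [k1, k2, k3, E2 hl hr q x d e, E2 hl hr q x c e, E2 hl hr q x c d] at e1
  have i1 := I3 hl hr c (as x d e) q
  have i2 := I3 hl hr d (as x c e) q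
  have i3 := I3 hl hr e (as x c d) q
  have i4 := I3 hl hr (as c d e) q x
  have ex := congrArg (· * q) (E1 hl hr x c d e)
  have eq := congrArg (x * ·) (E1 hl hr q c d e)
  have eqx := E1 hl hr (cm q x) c d e
  have j := jac hl hr q x (as c d e)
  simp only [hp, sm]
  simp only [cm, mul_sub, sub_mul, mul_add, add_mul, smul_mul_assoc, mul_smul_comm, smul_sub, smul_add] at *
  linear_combination (norm := skip) e1 - i1 + i2 - i3 - i4 - ex - eqx - eq - j
  abel_nf

/-- additive helper -/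
def ph (x c u : R) : R := x * cm c u - cm c (x * u)

/-- the torsion element -/
def tor (a b c d e x : R) : R :=
  hp (cm a b) x c d e - hp (cm a c) x b d e + hp (cm a d) x b c e - hp (cm a e) x b c d
    + hp (cm b c) x a d e - hp (cm b d) x a c e + hp (cm b e) x a c d + hp (cm c d) x a b e
    - hp (cm c e) x a b d + hp (cm d e) x a b c - ph x a (kf b c d e) + ph x b (kf a c d e)
    - ph x c (kf a b d e) + ph x d (kf a b c e) - ph x e (kf a b c d) - (2:ℤ) • (as x d e * as a b c)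
    + (2:ℤ) • (as x c e * as a b d) - (2:ℤ) • (as x c d * as a b e) - (2:ℤ) • (as x b e * as a c d) + (2:ℤ) • (as x b d * as a c e)
    - (2:ℤ) • (as x b c * as a d e) + (2:ℤ) • (as x a e * as b c d) - (2:ℤ) • (as x a d * as b c e) + (2:ℤ) • (as x a c * as b d e)
    - (2:ℤ) • (as x a b * as c d e)

omit hl hr in
theorem ph_add (x c u v : R) : ph x c (u + v) = ph x c u + ph x c v := by
  simp only [ph, cm, mul_add, add_mul, mul_sub, sub_mul]; abel
omit hl hr in
theorem ph_neg (x c u : R) : ph x c (-u) = - ph x c u := by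
  simp only [ph, cm, mul_neg, neg_mul, mul_sub, sub_mul]; abel
omit hl hr in
theorem cm_zero (a : R) : cm a 0 = 0 := by simp [cm]
omit hl hr in
theorem sm_eq (q x c d e : R) : sm q x c d e
    = ph x c (as q d e) - cm c (as (cm d e) q x) - as x d e * cm c q := by
  simp only [sm, ph]
theorem kf34' (a e b d : R) : kf a e b d = kf a b d e := by
  have h1 := kf23 hl hr a b e d
  have h2 := kf34 hl hr a b d e
  linear_combination (norm := abel) h1 - h2
theorem jac' (a b c : R) : cm c (cm a b) + cm a (cm b c) - cm b (cm a c) = (-6:ℤ) • as a b c := by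
  have h := jac hl hr a b c
  simp only [cm, mul_sub, sub_mul] at *
  linear_combination (norm := skip) (-1:ℤ) • h
  abel_nf

theorem tor3 (a b c d e x : R) : (3:ℤ) • tor a b c d e x = 0 := by
  have l0 := L3 hl hr (cm a b) x c d e
  have l1 := L3 hl hr (cm a c) x b d e
  have l2 := L3 hl hr (cm a d) x b c e
  have l3 := L3 hl hr (cm a e) x b c d
  have l4 := L3 hl hr (cm b c) x a d e
  have l5 := L3 hl hr (cm b d) x a c e
  have l6 := L3 hl hr (cm b e) x a c d
  have l7 := L3 hl hr (cm c d) x a b e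
  have l8 := L3 hl hr (cm c e) x a b d
  have l9 := L3 hl hr (cm d e) x a b c
  have p0 : ph x a (as (cm b c) d e) + ph x a (as (cm d e) b c) = (1:ℤ) • ph x a (kf b c d e) := by
    rw [← ph_add, ← E2 hl hr b c d e, one_smul]
  have q0 : cm a (as (cm d e) (cm b c) x) + cm a (as (cm b c) (cm d e) x) = 0 := by
    rw [← cm_add2, as12 hl hr (cm b c) (cm d e) x, neg_add_cancel, cm_zero]
  have p1 : ph x a (as (cm b d) c e) + ph x a (as (cm c e) b d) = (-1:ℤ) • ph x a (kf b c d e) := by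
    rw [← ph_add, ← E2 hl hr b d c e, kf23 hl hr b c d e, ph_neg, neg_one_smul]
  have q1 : cm a (as (cm c e) (cm b d) x) + cm a (as (cm b d) (cm c e) x) = 0 := by
    rw [← cm_add2, as12 hl hr (cm b d) (cm c e) x, neg_add_cancel, cm_zero]
  have p2 : ph x a (as (cm b e) c d) + ph x a (as (cm c d) b e) = (1:ℤ) • ph x a (kf b c d e) := by
    rw [← ph_add, ← E2 hl hr b e c d, kf34' hl hr b e c d, one_smul]
  have q2 : cm a (as (cm c d) (cm b e) x) + cm a (as (cm b e) (cm c d) x) = 0 := by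
    rw [← cm_add2, as12 hl hr (cm b e) (cm c d) x, neg_add_cancel, cm_zero]
  have p3 : ph x b (as (cm a c) d e) + ph x b (as (cm d e) a c) = (1:ℤ) • ph x b (kf a c d e) := by
    rw [← ph_add, ← E2 hl hr a c d e, one_smul]
  have q3 : cm b (as (cm d e) (cm a c) x) + cm b (as (cm a c) (cm d e) x) = 0 := by
    rw [← cm_add2, as12 hl hr (cm a c) (cm d e) x, neg_add_cancel, cm_zero]
  have p4 : ph x b (as (cm a d) c e) + ph x b (as (cm c e) a d) = (-1:ℤ) • ph x b (kf a c d e) := by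
    rw [← ph_add, ← E2 hl hr a d c e, kf23 hl hr a c d e, ph_neg, neg_one_smul]
  have q4 : cm b (as (cm c e) (cm a d) x) + cm b (as (cm a d) (cm c e) x) = 0 := by
    rw [← cm_add2, as12 hl hr (cm a d) (cm c e) x, neg_add_cancel, cm_zero]
  have p5 : ph x b (as (cm a e) c d) + ph x b (as (cm c d) a e) = (1:ℤ) • ph x b (kf a c d e) := by
    rw [← ph_add, ← E2 hl hr a e c d, kf34' hl hr a e c d, one_smul]
  have q5 : cm b (as (cm c d) (cm a e) x) + cm b (as (cm a e) (cm c d) x) = 0 := by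
    rw [← cm_add2, as12 hl hr (cm a e) (cm c d) x, neg_add_cancel, cm_zero]
  have p6 : ph x c (as (cm a b) d e) + ph x c (as (cm d e) a b) = (1:ℤ) • ph x c (kf a b d e) := by
    rw [← ph_add, ← E2 hl hr a b d e, one_smul]
  have q6 : cm c (as (cm d e) (cm a b) x) + cm c (as (cm a b) (cm d e) x) = 0 := by
    rw [← cm_add2, as12 hl hr (cm a b) (cm d e) x, neg_add_cancel, cm_zero]
  have p7 : ph x c (as (cm a d) b e) + ph x c (as (cm b e) a d) = (-1:ℤ) • ph x c (kf a b d e) := by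
    rw [← ph_add, ← E2 hl hr a d b e, kf23 hl hr a b d e, ph_neg, neg_one_smul]
  have q7 : cm c (as (cm b e) (cm a d) x) + cm c (as (cm a d) (cm b e) x) = 0 := by
    rw [← cm_add2, as12 hl hr (cm a d) (cm b e) x, neg_add_cancel, cm_zero]
  have p8 : ph x c (as (cm a e) b d) + ph x c (as (cm b d) a e) = (1:ℤ) • ph x c (kf a b d e) := by
    rw [← ph_add, ← E2 hl hr a e b d, kf34' hl hr a e b d, one_smul]
  have q8 : cm c (as (cm b d) (cm a e) x) + cm c (as (cm a e) (cm b d) x) = 0 := by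
    rw [← cm_add2, as12 hl hr (cm a e) (cm b d) x, neg_add_cancel, cm_zero]
  have p9 : ph x d (as (cm a b) c e) + ph x d (as (cm c e) a b) = (1:ℤ) • ph x d (kf a b c e) := by
    rw [← ph_add, ← E2 hl hr a b c e, one_smul]
  have q9 : cm d (as (cm c e) (cm a b) x) + cm d (as (cm a b) (cm c e) x) = 0 := by
    rw [← cm_add2, as12 hl hr (cm a b) (cm c e) x, neg_add_cancel, cm_zero]
  have p10 : ph x d (as (cm a c) b e) + ph x d (as (cm b e) a c) = (-1:ℤ) • ph x d (kf a b c e) := by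
    rw [← ph_add, ← E2 hl hr a c b e, kf23 hl hr a b c e, ph_neg, neg_one_smul]
  have q10 : cm d (as (cm b e) (cm a c) x) + cm d (as (cm a c) (cm b e) x) = 0 := by
    rw [← cm_add2, as12 hl hr (cm a c) (cm b e) x, neg_add_cancel, cm_zero]
  have p11 : ph x d (as (cm a e) b c) + ph x d (as (cm b c) a e) = (1:ℤ) • ph x d (kf a b c e) := by
    rw [← ph_add, ← E2 hl hr a e b c, kf34' hl hr a e b c, one_smul]
  have q11 : cm d (as (cm b c) (cm a e) x) + cm d (as (cm a e) (cm b c) x) = 0 := by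
    rw [← cm_add2, as12 hl hr (cm a e) (cm b c) x, neg_add_cancel, cm_zero]
  have p12 : ph x e (as (cm a b) c d) + ph x e (as (cm c d) a b) = (1:ℤ) • ph x e (kf a b c d) := by
    rw [← ph_add, ← E2 hl hr a b c d, one_smul]
  have q12 : cm e (as (cm c d) (cm a b) x) + cm e (as (cm a b) (cm c d) x) = 0 := by
    rw [← cm_add2, as12 hl hr (cm a b) (cm c d) x, neg_add_cancel, cm_zero]
  have p13 : ph x e (as (cm a c) b d) + ph x e (as (cm b d) a c) = (-1:ℤ) • ph x e (kf a b c d) := by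
    rw [← ph_add, ← E2 hl hr a c b d, kf23 hl hr a b c d, ph_neg, neg_one_smul]
  have q13 : cm e (as (cm b d) (cm a c) x) + cm e (as (cm a c) (cm b d) x) = 0 := by
    rw [← cm_add2, as12 hl hr (cm a c) (cm b d) x, neg_add_cancel, cm_zero]
  have p14 : ph x e (as (cm a d) b c) + ph x e (as (cm b c) a d) = (1:ℤ) • ph x e (kf a b c d) := by
    rw [← ph_add, ← E2 hl hr a d b c, kf34' hl hr a d b c, one_smul]
  have q14 : cm e (as (cm b c) (cm a d) x) + cm e (as (cm a d) (cm b c) x) = 0 := by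
    rw [← cm_add2, as12 hl hr (cm a d) (cm b c) x, neg_add_cancel, cm_zero]
  have r0 : as x d e * cm c (cm a b) + as x d e * cm a (cm b c) - as x d e * cm b (cm a c) = (-6:ℤ) • (as x d e * as a b c) := by
    rw [← mul_add, ← mul_sub, jac' hl hr a b c, mul_smul_comm]
  have r1 : as x c e * cm d (cm a b) + as x c e * cm a (cm b d) - as x c e * cm b (cm a d) = (-6:ℤ) • (as x c e * as a b d) := by
    rw [← mul_add, ← mul_sub, jac' hl hr a b d, mul_smul_comm]
  have r2 : as x c d * cm e (cm a b) + as x c d * cm a (cm b e) - as x c d * cm b (cm a e) = (-6:ℤ) • (as x c d * as a b e) := by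
    rw [← mul_add, ← mul_sub, jac' hl hr a b e, mul_smul_comm]
  have r3 : as x b e * cm d (cm a c) + as x b e * cm a (cm c d) - as x b e * cm c (cm a d) = (-6:ℤ) • (as x b e * as a c d) := by
    rw [← mul_add, ← mul_sub, jac' hl hr a c d, mul_smul_comm]
  have r4 : as x b d * cm e (cm a c) + as x b d * cm a (cm c e) - as x b d * cm c (cm a e) = (-6:ℤ) • (as x b d * as a c e) := by
    rw [← mul_add, ← mul_sub, jac' hl hr a c e, mul_smul_comm]
  have r5 : as x b c * cm e (cm a d) + as x b c * cm a (cm d e) - as x b c * cm d (cm a e) = (-6:ℤ) • (as x b c * as a d e) := by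
    rw [← mul_add, ← mul_sub, jac' hl hr a d e, mul_smul_comm]
  have r6 : as x a e * cm d (cm b c) + as x a e * cm b (cm c d) - as x a e * cm c (cm b d) = (-6:ℤ) • (as x a e * as b c d) := by
    rw [← mul_add, ← mul_sub, jac' hl hr b c d, mul_smul_comm]
  have r7 : as x a d * cm e (cm b c) + as x a d * cm b (cm c e) - as x a d * cm c (cm b e) = (-6:ℤ) • (as x a d * as b c e) := by
    rw [← mul_add, ← mul_sub, jac' hl hr b c e, mul_smul_comm]
  have r8 : as x a c * cm e (cm b d) + as x a c * cm b (cm d e) - as x a c * cm d (cm b e) = (-6:ℤ) • (as x a c * as b d e) := by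
    rw [← mul_add, ← mul_sub, jac' hl hr b d e, mul_smul_comm]
  have r9 : as x a b * cm e (cm c d) + as x a b * cm c (cm d e) - as x a b * cm d (cm c e) = (-6:ℤ) • (as x a b * as c d e) := by
    rw [← mul_add, ← mul_sub, jac' hl hr c d e, mul_smul_comm]
  simp only [tor, smul_add, smul_sub]
  simp only [sm_eq] at l0 l1 l2 l3 l4 l5 l6 l7 l8 l9
  linear_combination (norm := skip) l0 - l1 + l2 - l3 + l4 - l5 + l6 + l7 - l8 + l9 + p0 - q0 - p1 + q1 + p2 - q2 - p3 + q3 + p4 - q4 - p5 + q5 + p6 - q6 - p7 + q7 + p8 - q8 - p9 + q9 + p10 - q10 - p11 + q11 + p12 - q12 - p13 + q13 + p14 - q14 - r0 + r1 - r2 - r3 + r4 - r5 + r6 - r7 + r8 - r9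
  abel_nf

end Ring

/-! ### A 49-dimensional commutative algebra satisfying the Jacobi identity -/

section Model
variable {K : Type*} [CommRing K]

/-- product on `K^49` -/
def mulF (f g : Fin 49 → K) : Fin 49 → K :=
  ![0,
    0,
    0,
    0,
    0,
    0,
    f 0 * g 3 + f 3 * g 0,
    f 1 * g 3 + f 3 * g 1,
    f 2 * g 3 + f 3 * g 2,
    f 0 * g 4 + f 4 * g 0,
    f 1 * g 4 + f 4 * g 1,
    f 2 * g 4 + f 4 * g 2,
    f 0 * g 5 + f 5 * g 0,
    f 1 * g 5 + f 5 * g 1,
    f 2 * g 5 + f 5 * g 2,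
    f 0 * g 7 - f 1 * g 6 - f 6 * g 1 + f 7 * g 0,
    f 0 * g 8 - f 2 * g 6 - f 6 * g 2 + f 8 * g 0,
    f 1 * g 8 - f 2 * g 7 - f 7 * g 2 + f 8 * g 1,
    f 0 * g 10 - f 1 * g 9 - f 9 * g 1 + f 10 * g 0,
    f 0 * g 11 - f 2 * g 9 - f 9 * g 2 + f 11 * g 0,
    f 1 * g 11 - f 2 * g 10 - f 10 * g 2 + f 11 * g 1,
    f 3 * g 9 - f 4 * g 6 - f 6 * g 4 + f 9 * g 3,
    f 3 * g 10 - f 4 * g 7 - f 7 * g 4 + f 10 * g 3,
    f 3 * g 11 - f 4 * g 8 - f 8 * g 4 + f 11 * g 3,
    f 0 * g 13 - f 1 * g 12 - f 12 * g 1 + f 13 * g 0,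
    f 0 * g 14 - f 2 * g 12 - f 12 * g 2 + f 14 * g 0,
    f 1 * g 14 - f 2 * g 13 - f 13 * g 2 + f 14 * g 1,
    f 3 * g 12 - f 5 * g 6 - f 6 * g 5 + f 12 * g 3,
    f 4 * g 12 - f 5 * g 9 - f 9 * g 5 + f 12 * g 4,
    f 0 * g 17 - f 1 * g 16 + f 2 * g 15 + f 15 * g 2 - f 16 * g 1 + f 17 * g 0,
    f 0 * g 20 - f 1 * g 19 + f 2 * g 18 + f 18 * g 2 - f 19 * g 1 + f 20 * g 0,
    f 3 * g 18 - f 4 * g 15 - f 6 * g 10 + f 7 * g 9 + f 9 * g 7 - f 10 * g 6 - f 15 * g 4 + f 18 * g 3,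
    f 0 * g 22 - f 1 * g 21 - f 6 * g 10 + f 7 * g 9 + f 9 * g 7 - f 10 * g 6 - f 21 * g 1 + f 22 * g 0,
    f 3 * g 19 - f 4 * g 16 - f 6 * g 11 + f 8 * g 9 + f 9 * g 8 - f 11 * g 6 - f 16 * g 4 + f 19 * g 3,
    f 0 * g 23 - f 2 * g 21 - f 6 * g 11 + f 8 * g 9 + f 9 * g 8 - f 11 * g 6 - f 21 * g 2 + f 23 * g 0,
    - f 1 * g 23 + f 2 * g 22 + f 3 * g 20 - f 4 * g 17 - f 17 * g 4 + f 20 * g 3 + f 22 * g 2 - f 23 * g 1,
    f 3 * g 24 - f 5 * g 15 - f 6 * g 13 + f 7 * g 12 + f 12 * g 7 - f 13 * g 6 - f 15 * g 5 + f 24 * g 3,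
    f 3 * g 25 - f 5 * g 16 - f 6 * g 14 + f 8 * g 12 + f 12 * g 8 - f 14 * g 6 - f 16 * g 5 + f 25 * g 3,
    f 3 * g 26 - f 5 * g 17 - f 7 * g 14 + f 8 * g 13 + f 13 * g 8 - f 14 * g 7 - f 17 * g 5 + f 26 * g 3,
    f 4 * g 24 - f 5 * g 18 - f 9 * g 13 + f 10 * g 12 + f 12 * g 10 - f 13 * g 9 - f 18 * g 5 + f 24 * g 4,
    f 4 * g 25 - f 5 * g 19 - f 9 * g 14 + f 11 * g 12 + f 12 * g 11 - f 14 * g 9 - f 19 * g 5 + f 25 * g 4,
    f 4 * g 26 - f 5 * g 20 - f 10 * g 14 + f 11 * g 13 + f 13 * g 11 - f 14 * g 10 - f 20 * g 5 + f 26 * g 4,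
    f 3 * g 28 - f 4 * g 27 + f 5 * g 21 + f 21 * g 5 - f 27 * g 4 + f 28 * g 3,
    - f 0 * g 35 + f 1 * g 33 - f 1 * g 34 - f 2 * g 31 + f 2 * g 32 + f 3 * g 30 - f 4 * g 29 - f 29 * g 4 + f 30 * g 3 - f 31 * g 2 + f 32 * g 2 + f 33 * g 1 - f 34 * g 1 - f 35 * g 0,
    f 0 * g 38 - f 1 * g 37 + f 2 * g 36 + f 5 * g 29 - f 6 * g 26 + f 7 * g 25 - f 8 * g 24 - f 24 * g 8 + f 25 * g 7 - f 26 * g 6 + f 29 * g 5 + f 36 * g 2 - f 37 * g 1 + f 38 * g 0,
    f 0 * g 41 - f 1 * g 40 + f 2 * g 39 + f 5 * g 30 - f 9 * g 26 + f 10 * g 25 - f 11 * g 24 - f 24 * g 11 + f 25 * g 10 - f 26 * g 9 + f 30 * g 5 + f 39 * g 2 - f 40 * g 1 + f 41 * g 0,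
    f 1 * g 42 - f 3 * g 39 + f 4 * g 36 - f 5 * g 31 - f 7 * g 28 + f 10 * g 27 - f 13 * g 21 - f 21 * g 13 + f 27 * g 10 - f 28 * g 7 - f 31 * g 5 + f 36 * g 4 - f 39 * g 3 + f 42 * g 1,
    f 2 * g 42 - f 3 * g 40 + f 4 * g 37 - f 5 * g 33 - f 8 * g 28 + f 11 * g 27 - f 14 * g 21 - f 21 * g 14 + f 27 * g 11 - f 28 * g 8 - f 33 * g 5 + f 37 * g 4 - f 40 * g 3 + f 42 * g 2,
    f 1 * g 47 - f 2 * g 46 - f 3 * g 45 + f 4 * g 44 + f 5 * g 43 + f 6 * g 41 - f 9 * g 38 + f 12 * g 35 + f 13 * g 34 - f 14 * g 32 + f 17 * g 28 - f 20 * g 27 + f 22 * g 25 - f 23 * g 24 - f 24 * g 23 + f 25 * g 22 - f 27 * g 20 + f 28 * g 17 - f 32 * g 14 + f 34 * g 13 + f 35 * g 12 - f 38 * g 9 + f 41 * g 6 + f 43 * g 5 + f 44 * g 4 - f 45 * g 3 - f 46 * g 2 + f 47 * g 1]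

theorem mulF_0 (f g : Fin 49 → K) : mulF f g 0 = 0 := rfl
theorem mulF_1 (f g : Fin 49 → K) : mulF f g 1 = 0 := rfl
theorem mulF_2 (f g : Fin 49 → K) : mulF f g 2 = 0 := rfl
theorem mulF_3 (f g : Fin 49 → K) : mulF f g 3 = 0 := rfl
theorem mulF_4 (f g : Fin 49 → K) : mulF f g 4 = 0 := rfl
theorem mulF_5 (f g : Fin 49 → K) : mulF f g 5 = 0 := rfl
theorem mulF_6 (f g : Fin 49 → K) : mulF f g 6 = f 0 * g 3 + f 3 * g 0 := rfl
theorem mulF_7 (f g : Fin 49 → K) : mulF f g 7 = f 1 * g 3 + f 3 * g 1 := rfl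
theorem mulF_8 (f g : Fin 49 → K) : mulF f g 8 = f 2 * g 3 + f 3 * g 2 := rfl
theorem mulF_9 (f g : Fin 49 → K) : mulF f g 9 = f 0 * g 4 + f 4 * g 0 := rfl
theorem mulF_10 (f g : Fin 49 → K) : mulF f g 10 = f 1 * g 4 + f 4 * g 1 := rfl
theorem mulF_11 (f g : Fin 49 → K) : mulF f g 11 = f 2 * g 4 + f 4 * g 2 := rfl
theorem mulF_12 (f g : Fin 49 → K) : mulF f g 12 = f 0 * g 5 + f 5 * g 0 := rfl
theorem mulF_13 (f g : Fin 49 → K) : mulF f g 13 = f 1 * g 5 + f 5 * g 1 := rfl
theorem mulF_14 (f g : Fin 49 → K) : mulF f g 14 = f 2 * g 5 + f 5 * g 2 := rfl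
theorem mulF_15 (f g : Fin 49 → K) : mulF f g 15 = f 0 * g 7 - f 1 * g 6 - f 6 * g 1 + f 7 * g 0 := rfl
theorem mulF_16 (f g : Fin 49 → K) : mulF f g 16 = f 0 * g 8 - f 2 * g 6 - f 6 * g 2 + f 8 * g 0 := rfl
theorem mulF_17 (f g : Fin 49 → K) : mulF f g 17 = f 1 * g 8 - f 2 * g 7 - f 7 * g 2 + f 8 * g 1 := rfl
theorem mulF_18 (f g : Fin 49 → K) : mulF f g 18 = f 0 * g 10 - f 1 * g 9 - f 9 * g 1 + f 10 * g 0 := rfl
theorem mulF_19 (f g : Fin 49 → K) : mulF f g 19 = f 0 * g 11 - f 2 * g 9 - f 9 * g 2 + f 11 * g 0 := rfl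
theorem mulF_20 (f g : Fin 49 → K) : mulF f g 20 = f 1 * g 11 - f 2 * g 10 - f 10 * g 2 + f 11 * g 1 := rfl
theorem mulF_21 (f g : Fin 49 → K) : mulF f g 21 = f 3 * g 9 - f 4 * g 6 - f 6 * g 4 + f 9 * g 3 := rfl
theorem mulF_22 (f g : Fin 49 → K) : mulF f g 22 = f 3 * g 10 - f 4 * g 7 - f 7 * g 4 + f 10 * g 3 := rfl
theorem mulF_23 (f g : Fin 49 → K) : mulF f g 23 = f 3 * g 11 - f 4 * g 8 - f 8 * g 4 + f 11 * g 3 := rfl
theorem mulF_24 (f g : Fin 49 → K) : mulF f g 24 = f 0 * g 13 - f 1 * g 12 - f 12 * g 1 + f 13 * g 0 := rfl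
theorem mulF_25 (f g : Fin 49 → K) : mulF f g 25 = f 0 * g 14 - f 2 * g 12 - f 12 * g 2 + f 14 * g 0 := rfl
theorem mulF_26 (f g : Fin 49 → K) : mulF f g 26 = f 1 * g 14 - f 2 * g 13 - f 13 * g 2 + f 14 * g 1 := rfl
theorem mulF_27 (f g : Fin 49 → K) : mulF f g 27 = f 3 * g 12 - f 5 * g 6 - f 6 * g 5 + f 12 * g 3 := rfl
theorem mulF_28 (f g : Fin 49 → K) : mulF f g 28 = f 4 * g 12 - f 5 * g 9 - f 9 * g 5 + f 12 * g 4 := rfl
theorem mulF_29 (f g : Fin 49 → K) : mulF f g 29 = f 0 * g 17 - f 1 * g 16 + f 2 * g 15 + f 15 * g 2 - f 16 * g 1 + f 17 * g 0 := rfl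
theorem mulF_30 (f g : Fin 49 → K) : mulF f g 30 = f 0 * g 20 - f 1 * g 19 + f 2 * g 18 + f 18 * g 2 - f 19 * g 1 + f 20 * g 0 := rfl
theorem mulF_31 (f g : Fin 49 → K) : mulF f g 31 = f 3 * g 18 - f 4 * g 15 - f 6 * g 10 + f 7 * g 9 + f 9 * g 7 - f 10 * g 6 - f 15 * g 4 + f 18 * g 3 := rfl
theorem mulF_32 (f g : Fin 49 → K) : mulF f g 32 = f 0 * g 22 - f 1 * g 21 - f 6 * g 10 + f 7 * g 9 + f 9 * g 7 - f 10 * g 6 - f 21 * g 1 + f 22 * g 0 := rfl
theorem mulF_33 (f g : Fin 49 → K) : mulF f g 33 = f 3 * g 19 - f 4 * g 16 - f 6 * g 11 + f 8 * g 9 + f 9 * g 8 - f 11 * g 6 - f 16 * g 4 + f 19 * g 3 := rfl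
theorem mulF_34 (f g : Fin 49 → K) : mulF f g 34 = f 0 * g 23 - f 2 * g 21 - f 6 * g 11 + f 8 * g 9 + f 9 * g 8 - f 11 * g 6 - f 21 * g 2 + f 23 * g 0 := rfl
theorem mulF_35 (f g : Fin 49 → K) : mulF f g 35 = - f 1 * g 23 + f 2 * g 22 + f 3 * g 20 - f 4 * g 17 - f 17 * g 4 + f 20 * g 3 + f 22 * g 2 - f 23 * g 1 := rfl
theorem mulF_36 (f g : Fin 49 → K) : mulF f g 36 = f 3 * g 24 - f 5 * g 15 - f 6 * g 13 + f 7 * g 12 + f 12 * g 7 - f 13 * g 6 - f 15 * g 5 + f 24 * g 3 := rfl
theorem mulF_37 (f g : Fin 49 → K) : mulF f g 37 = f 3 * g 25 - f 5 * g 16 - f 6 * g 14 + f 8 * g 12 + f 12 * g 8 - f 14 * g 6 - f 16 * g 5 + f 25 * g 3 := rfl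
theorem mulF_38 (f g : Fin 49 → K) : mulF f g 38 = f 3 * g 26 - f 5 * g 17 - f 7 * g 14 + f 8 * g 13 + f 13 * g 8 - f 14 * g 7 - f 17 * g 5 + f 26 * g 3 := rfl
theorem mulF_39 (f g : Fin 49 → K) : mulF f g 39 = f 4 * g 24 - f 5 * g 18 - f 9 * g 13 + f 10 * g 12 + f 12 * g 10 - f 13 * g 9 - f 18 * g 5 + f 24 * g 4 := rfl
theorem mulF_40 (f g : Fin 49 → K) : mulF f g 40 = f 4 * g 25 - f 5 * g 19 - f 9 * g 14 + f 11 * g 12 + f 12 * g 11 - f 14 * g 9 - f 19 * g 5 + f 25 * g 4 := rfl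
theorem mulF_41 (f g : Fin 49 → K) : mulF f g 41 = f 4 * g 26 - f 5 * g 20 - f 10 * g 14 + f 11 * g 13 + f 13 * g 11 - f 14 * g 10 - f 20 * g 5 + f 26 * g 4 := rfl
theorem mulF_42 (f g : Fin 49 → K) : mulF f g 42 = f 3 * g 28 - f 4 * g 27 + f 5 * g 21 + f 21 * g 5 - f 27 * g 4 + f 28 * g 3 := rfl
theorem mulF_43 (f g : Fin 49 → K) : mulF f g 43 = - f 0 * g 35 + f 1 * g 33 - f 1 * g 34 - f 2 * g 31 + f 2 * g 32 + f 3 * g 30 - f 4 * g 29 - f 29 * g 4 + f 30 * g 3 - f 31 * g 2 + f 32 * g 2 + f 33 * g 1 - f 34 * g 1 - f 35 * g 0 := rfl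
theorem mulF_44 (f g : Fin 49 → K) : mulF f g 44 = f 0 * g 38 - f 1 * g 37 + f 2 * g 36 + f 5 * g 29 - f 6 * g 26 + f 7 * g 25 - f 8 * g 24 - f 24 * g 8 + f 25 * g 7 - f 26 * g 6 + f 29 * g 5 + f 36 * g 2 - f 37 * g 1 + f 38 * g 0 := rfl
theorem mulF_45 (f g : Fin 49 → K) : mulF f g 45 = f 0 * g 41 - f 1 * g 40 + f 2 * g 39 + f 5 * g 30 - f 9 * g 26 + f 10 * g 25 - f 11 * g 24 - f 24 * g 11 + f 25 * g 10 - f 26 * g 9 + f 30 * g 5 + f 39 * g 2 - f 40 * g 1 + f 41 * g 0 := rfl
theorem mulF_46 (f g : Fin 49 → K) : mulF f g 46 = f 1 * g 42 - f 3 * g 39 + f 4 * g 36 - f 5 * g 31 - f 7 * g 28 + f 10 * g 27 - f 13 * g 21 - f 21 * g 13 + f 27 * g 10 - f 28 * g 7 - f 31 * g 5 + f 36 * g 4 - f 39 * g 3 + f 42 * g 1 := rfl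
theorem mulF_47 (f g : Fin 49 → K) : mulF f g 47 = f 2 * g 42 - f 3 * g 40 + f 4 * g 37 - f 5 * g 33 - f 8 * g 28 + f 11 * g 27 - f 14 * g 21 - f 21 * g 14 + f 27 * g 11 - f 28 * g 8 - f 33 * g 5 + f 37 * g 4 - f 40 * g 3 + f 42 * g 2 := rfl
theorem mulF_48 (f g : Fin 49 → K) : mulF f g 48 = f 1 * g 47 - f 2 * g 46 - f 3 * g 45 + f 4 * g 44 + f 5 * g 43 + f 6 * g 41 - f 9 * g 38 + f 12 * g 35 + f 13 * g 34 - f 14 * g 32 + f 17 * g 28 - f 20 * g 27 + f 22 * g 25 - f 23 * g 24 - f 24 * g 23 + f 25 * g 22 - f 27 * g 20 + f 28 * g 17 - f 32 * g 14 + f 34 * g 13 + f 35 * g 12 - f 38 * g 9 + f 41 * g 6 + f 43 * g 5 + f 44 * g 4 - f 45 * g 3 - f 46 * g 2 + f 47 * g 1 := rfl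

theorem mulF_comm (f g : Fin 49 → K) : mulF f g = mulF g f := by
  funext k
  fin_cases k
  · show mulF f g 0 = mulF g f 0; rw [mulF_0, mulF_0]
  · show mulF f g 1 = mulF g f 1; rw [mulF_1, mulF_1]
  · show mulF f g 2 = mulF g f 2; rw [mulF_2, mulF_2]
  · show mulF f g 3 = mulF g f 3; rw [mulF_3, mulF_3]
  · show mulF f g 4 = mulF g f 4; rw [mulF_4, mulF_4]
  · show mulF f g 5 = mulF g f 5; rw [mulF_5, mulF_5]
  · show mulF f g 6 = mulF g f 6; rw [mulF_6, mulF_6]; ring
  · show mulF f g 7 = mulF g f 7; rw [mulF_7, mulF_7]; ring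
  · show mulF f g 8 = mulF g f 8; rw [mulF_8, mulF_8]; ring
  · show mulF f g 9 = mulF g f 9; rw [mulF_9, mulF_9]; ring
  · show mulF f g 10 = mulF g f 10; rw [mulF_10, mulF_10]; ring
  · show mulF f g 11 = mulF g f 11; rw [mulF_11, mulF_11]; ring
  · show mulF f g 12 = mulF g f 12; rw [mulF_12, mulF_12]; ring
  · show mulF f g 13 = mulF g f 13; rw [mulF_13, mulF_13]; ring
  · show mulF f g 14 = mulF g f 14; rw [mulF_14, mulF_14]; ring
  · show mulF f g 15 = mulF g f 15; rw [mulF_15, mulF_15]; ring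
  · show mulF f g 16 = mulF g f 16; rw [mulF_16, mulF_16]; ring
  · show mulF f g 17 = mulF g f 17; rw [mulF_17, mulF_17]; ring
  · show mulF f g 18 = mulF g f 18; rw [mulF_18, mulF_18]; ring
  · show mulF f g 19 = mulF g f 19; rw [mulF_19, mulF_19]; ring
  · show mulF f g 20 = mulF g f 20; rw [mulF_20, mulF_20]; ring
  · show mulF f g 21 = mulF g f 21; rw [mulF_21, mulF_21]; ring
  · show mulF f g 22 = mulF g f 22; rw [mulF_22, mulF_22]; ring
  · show mulF f g 23 = mulF g f 23; rw [mulF_23, mulF_23]; ring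
  · show mulF f g 24 = mulF g f 24; rw [mulF_24, mulF_24]; ring
  · show mulF f g 25 = mulF g f 25; rw [mulF_25, mulF_25]; ring
  · show mulF f g 26 = mulF g f 26; rw [mulF_26, mulF_26]; ring
  · show mulF f g 27 = mulF g f 27; rw [mulF_27, mulF_27]; ring
  · show mulF f g 28 = mulF g f 28; rw [mulF_28, mulF_28]; ring
  · show mulF f g 29 = mulF g f 29; rw [mulF_29, mulF_29]; ring
  · show mulF f g 30 = mulF g f 30; rw [mulF_30, mulF_30]; ring
  · show mulF f g 31 = mulF g f 31; rw [mulF_31, mulF_31]; ring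
  · show mulF f g 32 = mulF g f 32; rw [mulF_32, mulF_32]; ring
  · show mulF f g 33 = mulF g f 33; rw [mulF_33, mulF_33]; ring
  · show mulF f g 34 = mulF g f 34; rw [mulF_34, mulF_34]; ring
  · show mulF f g 35 = mulF g f 35; rw [mulF_35, mulF_35]; ring
  · show mulF f g 36 = mulF g f 36; rw [mulF_36, mulF_36]; ring
  · show mulF f g 37 = mulF g f 37; rw [mulF_37, mulF_37]; ring
  · show mulF f g 38 = mulF g f 38; rw [mulF_38, mulF_38]; ring
  · show mulF f g 39 = mulF g f 39; rw [mulF_39, mulF_39]; ring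
  · show mulF f g 40 = mulF g f 40; rw [mulF_40, mulF_40]; ring
  · show mulF f g 41 = mulF g f 41; rw [mulF_41, mulF_41]; ring
  · show mulF f g 42 = mulF g f 42; rw [mulF_42, mulF_42]; ring
  · show mulF f g 43 = mulF g f 43; rw [mulF_43, mulF_43]; ring
  · show mulF f g 44 = mulF g f 44; rw [mulF_44, mulF_44]; ring
  · show mulF f g 45 = mulF g f 45; rw [mulF_45, mulF_45]; ring
  · show mulF f g 46 = mulF g f 46; rw [mulF_46, mulF_46]; ring
  · show mulF f g 47 = mulF g f 47; rw [mulF_47, mulF_47]; ring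
  · show mulF f g 48 = mulF g f 48; rw [mulF_48, mulF_48]; ring

theorem mulF_jac (f g h : Fin 49 → K) :
    mulF (mulF f g) h + mulF (mulF g h) f + mulF (mulF h f) g = 0 := by
  funext k
  fin_cases k
  · show mulF (mulF f g) h 0 + mulF (mulF g h) f 0 + mulF (mulF h f) g 0 = 0
    simp only [mulF_0]; ring
  · show mulF (mulF f g) h 1 + mulF (mulF g h) f 1 + mulF (mulF h f) g 1 = 0
    simp only [mulF_1]; ring
  · show mulF (mulF f g) h 2 + mulF (mulF g h) f 2 + mulF (mulF h f) g 2 = 0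
    simp only [mulF_2]; ring
  · show mulF (mulF f g) h 3 + mulF (mulF g h) f 3 + mulF (mulF h f) g 3 = 0
    simp only [mulF_3]; ring
  · show mulF (mulF f g) h 4 + mulF (mulF g h) f 4 + mulF (mulF h f) g 4 = 0
    simp only [mulF_4]; ring
  · show mulF (mulF f g) h 5 + mulF (mulF g h) f 5 + mulF (mulF h f) g 5 = 0
    simp only [mulF_5]; ring
  · show mulF (mulF f g) h 6 + mulF (mulF g h) f 6 + mulF (mulF h f) g 6 = 0
    simp only [mulF_0, mulF_3, mulF_6]; ring
  · show mulF (mulF f g) h 7 + mulF (mulF g h) f 7 + mulF (mulF h f) g 7 = 0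
    simp only [mulF_1, mulF_3, mulF_7]; ring
  · show mulF (mulF f g) h 8 + mulF (mulF g h) f 8 + mulF (mulF h f) g 8 = 0
    simp only [mulF_2, mulF_3, mulF_8]; ring
  · show mulF (mulF f g) h 9 + mulF (mulF g h) f 9 + mulF (mulF h f) g 9 = 0
    simp only [mulF_0, mulF_4, mulF_9]; ring
  · show mulF (mulF f g) h 10 + mulF (mulF g h) f 10 + mulF (mulF h f) g 10 = 0
    simp only [mulF_1, mulF_4, mulF_10]; ring
  · show mulF (mulF f g) h 11 + mulF (mulF g h) f 11 + mulF (mulF h f) g 11 = 0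
    simp only [mulF_2, mulF_4, mulF_11]; ring
  · show mulF (mulF f g) h 12 + mulF (mulF g h) f 12 + mulF (mulF h f) g 12 = 0
    simp only [mulF_0, mulF_5, mulF_12]; ring
  · show mulF (mulF f g) h 13 + mulF (mulF g h) f 13 + mulF (mulF h f) g 13 = 0
    simp only [mulF_1, mulF_5, mulF_13]; ring
  · show mulF (mulF f g) h 14 + mulF (mulF g h) f 14 + mulF (mulF h f) g 14 = 0
    simp only [mulF_2, mulF_5, mulF_14]; ring
  · show mulF (mulF f g) h 15 + mulF (mulF g h) f 15 + mulF (mulF h f) g 15 = 0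
    simp only [mulF_0, mulF_1, mulF_6, mulF_7, mulF_15]; ring
  · show mulF (mulF f g) h 16 + mulF (mulF g h) f 16 + mulF (mulF h f) g 16 = 0
    simp only [mulF_0, mulF_2, mulF_6, mulF_8, mulF_16]; ring
  · show mulF (mulF f g) h 17 + mulF (mulF g h) f 17 + mulF (mulF h f) g 17 = 0
    simp only [mulF_1, mulF_2, mulF_7, mulF_8, mulF_17]; ring
  · show mulF (mulF f g) h 18 + mulF (mulF g h) f 18 + mulF (mulF h f) g 18 = 0
    simp only [mulF_0, mulF_1, mulF_9, mulF_10, mulF_18]; ring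
  · show mulF (mulF f g) h 19 + mulF (mulF g h) f 19 + mulF (mulF h f) g 19 = 0
    simp only [mulF_0, mulF_2, mulF_9, mulF_11, mulF_19]; ring
  · show mulF (mulF f g) h 20 + mulF (mulF g h) f 20 + mulF (mulF h f) g 20 = 0
    simp only [mulF_1, mulF_2, mulF_10, mulF_11, mulF_20]; ring
  · show mulF (mulF f g) h 21 + mulF (mulF g h) f 21 + mulF (mulF h f) g 21 = 0
    simp only [mulF_3, mulF_4, mulF_6, mulF_9, mulF_21]; ring
  · show mulF (mulF f g) h 22 + mulF (mulF g h) f 22 + mulF (mulF h f) g 22 = 0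
    simp only [mulF_3, mulF_4, mulF_7, mulF_10, mulF_22]; ring
  · show mulF (mulF f g) h 23 + mulF (mulF g h) f 23 + mulF (mulF h f) g 23 = 0
    simp only [mulF_3, mulF_4, mulF_8, mulF_11, mulF_23]; ring
  · show mulF (mulF f g) h 24 + mulF (mulF g h) f 24 + mulF (mulF h f) g 24 = 0
    simp only [mulF_0, mulF_1, mulF_12, mulF_13, mulF_24]; ring
  · show mulF (mulF f g) h 25 + mulF (mulF g h) f 25 + mulF (mulF h f) g 25 = 0
    simp only [mulF_0, mulF_2, mulF_12, mulF_14, mulF_25]; ring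
  · show mulF (mulF f g) h 26 + mulF (mulF g h) f 26 + mulF (mulF h f) g 26 = 0
    simp only [mulF_1, mulF_2, mulF_13, mulF_14, mulF_26]; ring
  · show mulF (mulF f g) h 27 + mulF (mulF g h) f 27 + mulF (mulF h f) g 27 = 0
    simp only [mulF_3, mulF_5, mulF_6, mulF_12, mulF_27]; ring
  · show mulF (mulF f g) h 28 + mulF (mulF g h) f 28 + mulF (mulF h f) g 28 = 0
    simp only [mulF_4, mulF_5, mulF_9, mulF_12, mulF_28]; ring
  · show mulF (mulF f g) h 29 + mulF (mulF g h) f 29 + mulF (mulF h f) g 29 = 0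
    simp only [mulF_0, mulF_1, mulF_2, mulF_15, mulF_16, mulF_17, mulF_29]; ring
  · show mulF (mulF f g) h 30 + mulF (mulF g h) f 30 + mulF (mulF h f) g 30 = 0
    simp only [mulF_0, mulF_1, mulF_2, mulF_18, mulF_19, mulF_20, mulF_30]; ring
  · show mulF (mulF f g) h 31 + mulF (mulF g h) f 31 + mulF (mulF h f) g 31 = 0
    simp only [mulF_3, mulF_4, mulF_6, mulF_7, mulF_9, mulF_10, mulF_15, mulF_18, mulF_31]; ring
  · show mulF (mulF f g) h 32 + mulF (mulF g h) f 32 + mulF (mulF h f) g 32 = 0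
    simp only [mulF_0, mulF_1, mulF_6, mulF_7, mulF_9, mulF_10, mulF_21, mulF_22, mulF_32]; ring
  · show mulF (mulF f g) h 33 + mulF (mulF g h) f 33 + mulF (mulF h f) g 33 = 0
    simp only [mulF_3, mulF_4, mulF_6, mulF_8, mulF_9, mulF_11, mulF_16, mulF_19, mulF_33]; ring
  · show mulF (mulF f g) h 34 + mulF (mulF g h) f 34 + mulF (mulF h f) g 34 = 0
    simp only [mulF_0, mulF_2, mulF_6, mulF_8, mulF_9, mulF_11, mulF_21, mulF_23, mulF_34]; ring
  · show mulF (mulF f g) h 35 + mulF (mulF g h) f 35 + mulF (mulF h f) g 35 = 0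
    simp only [mulF_1, mulF_2, mulF_3, mulF_4, mulF_17, mulF_20, mulF_22, mulF_23, mulF_35]; ring
  · show mulF (mulF f g) h 36 + mulF (mulF g h) f 36 + mulF (mulF h f) g 36 = 0
    simp only [mulF_3, mulF_5, mulF_6, mulF_7, mulF_12, mulF_13, mulF_15, mulF_24, mulF_36]; ring
  · show mulF (mulF f g) h 37 + mulF (mulF g h) f 37 + mulF (mulF h f) g 37 = 0
    simp only [mulF_3, mulF_5, mulF_6, mulF_8, mulF_12, mulF_14, mulF_16, mulF_25, mulF_37]; ring
  · show mulF (mulF f g) h 38 + mulF (mulF g h) f 38 + mulF (mulF h f) g 38 = 0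
    simp only [mulF_3, mulF_5, mulF_7, mulF_8, mulF_13, mulF_14, mulF_17, mulF_26, mulF_38]; ring
  · show mulF (mulF f g) h 39 + mulF (mulF g h) f 39 + mulF (mulF h f) g 39 = 0
    simp only [mulF_4, mulF_5, mulF_9, mulF_10, mulF_12, mulF_13, mulF_18, mulF_24, mulF_39]; ring
  · show mulF (mulF f g) h 40 + mulF (mulF g h) f 40 + mulF (mulF h f) g 40 = 0
    simp only [mulF_4, mulF_5, mulF_9, mulF_11, mulF_12, mulF_14, mulF_19, mulF_25, mulF_40]; ring
  · show mulF (mulF f g) h 41 + mulF (mulF g h) f 41 + mulF (mulF h f) g 41 = 0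
    simp only [mulF_4, mulF_5, mulF_10, mulF_11, mulF_13, mulF_14, mulF_20, mulF_26, mulF_41]; ring
  · show mulF (mulF f g) h 42 + mulF (mulF g h) f 42 + mulF (mulF h f) g 42 = 0
    simp only [mulF_3, mulF_4, mulF_5, mulF_21, mulF_27, mulF_28, mulF_42]; ring
  · show mulF (mulF f g) h 43 + mulF (mulF g h) f 43 + mulF (mulF h f) g 43 = 0
    simp only [mulF_0, mulF_1, mulF_2, mulF_3, mulF_4, mulF_29, mulF_30, mulF_31, mulF_32, mulF_33, mulF_34, mulF_35, mulF_43]; ring
  · show mulF (mulF f g) h 44 + mulF (mulF g h) f 44 + mulF (mulF h f) g 44 = 0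
    simp only [mulF_0, mulF_1, mulF_2, mulF_5, mulF_6, mulF_7, mulF_8, mulF_24, mulF_25, mulF_26, mulF_29, mulF_36, mulF_37, mulF_38, mulF_44]; ring
  · show mulF (mulF f g) h 45 + mulF (mulF g h) f 45 + mulF (mulF h f) g 45 = 0
    simp only [mulF_0, mulF_1, mulF_2, mulF_5, mulF_9, mulF_10, mulF_11, mulF_24, mulF_25, mulF_26, mulF_30, mulF_39, mulF_40, mulF_41, mulF_45]; ring
  · show mulF (mulF f g) h 46 + mulF (mulF g h) f 46 + mulF (mulF h f) g 46 = 0
    simp only [mulF_1, mulF_3, mulF_4, mulF_5, mulF_7, mulF_10, mulF_13, mulF_21, mulF_27, mulF_28, mulF_31, mulF_36, mulF_39, mulF_42, mulF_46]; ring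
  · show mulF (mulF f g) h 47 + mulF (mulF g h) f 47 + mulF (mulF h f) g 47 = 0
    simp only [mulF_2, mulF_3, mulF_4, mulF_5, mulF_8, mulF_11, mulF_14, mulF_21, mulF_27, mulF_28, mulF_33, mulF_37, mulF_40, mulF_42, mulF_47]; ring
  · show mulF (mulF f g) h 48 + mulF (mulF g h) f 48 + mulF (mulF h f) g 48 = 0
    simp only [mulF_1, mulF_2, mulF_3, mulF_4, mulF_5, mulF_6, mulF_9, mulF_12, mulF_13, mulF_14, mulF_17, mulF_20, mulF_22, mulF_23, mulF_24, mulF_25, mulF_27, mulF_28, mulF_32, mulF_34, mulF_35, mulF_38, mulF_41, mulF_43, mulF_44, mulF_45, mulF_46, mulF_47, mulF_48]; ring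

end Model

/-! ### The algebra `Mo K` -/

section Mo

/-- the module `K^49` carrying the product `mulF` -/
def Mo (K : Type*) : Type _ := Fin 49 → K

variable {K : Type*} [CommRing K]

instance : AddCommGroup (Mo K) := inferInstanceAs (AddCommGroup (Fin 49 → K))

instance instModuleMo {Φ : Type*} [CommRing Φ] [Module Φ K] : Module Φ (Mo K) :=
  inferInstanceAs (Module Φ (Fin 49 → K))

theorem mulF_add (f g h : Fin 49 → K) : mulF f (g + h) = mulF f g + mulF f h := by
  funext k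
  fin_cases k
  · show mulF f (g + h) 0 = mulF f g 0 + mulF f h 0
    rw [mulF_0, mulF_0, mulF_0]; ring
  · show mulF f (g + h) 1 = mulF f g 1 + mulF f h 1
    rw [mulF_1, mulF_1, mulF_1]; ring
  · show mulF f (g + h) 2 = mulF f g 2 + mulF f h 2
    rw [mulF_2, mulF_2, mulF_2]; ring
  · show mulF f (g + h) 3 = mulF f g 3 + mulF f h 3
    rw [mulF_3, mulF_3, mulF_3]; ring
  · show mulF f (g + h) 4 = mulF f g 4 + mulF f h 4
    rw [mulF_4, mulF_4, mulF_4]; ring
  · show mulF f (g + h) 5 = mulF f g 5 + mulF f h 5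
    rw [mulF_5, mulF_5, mulF_5]; ring
  · show mulF f (g + h) 6 = mulF f g 6 + mulF f h 6
    rw [mulF_6, mulF_6, mulF_6]; simp only [Pi.add_apply]; ring
  · show mulF f (g + h) 7 = mulF f g 7 + mulF f h 7
    rw [mulF_7, mulF_7, mulF_7]; simp only [Pi.add_apply]; ring
  · show mulF f (g + h) 8 = mulF f g 8 + mulF f h 8
    rw [mulF_8, mulF_8, mulF_8]; simp only [Pi.add_apply]; ring
  · show mulF f (g + h) 9 = mulF f g 9 + mulF f h 9
    rw [mulF_9, mulF_9, mulF_9]; simp only [Pi.add_apply]; ring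
  · show mulF f (g + h) 10 = mulF f g 10 + mulF f h 10
    rw [mulF_10, mulF_10, mulF_10]; simp only [Pi.add_apply]; ring
  · show mulF f (g + h) 11 = mulF f g 11 + mulF f h 11
    rw [mulF_11, mulF_11, mulF_11]; simp only [Pi.add_apply]; ring
  · show mulF f (g + h) 12 = mulF f g 12 + mulF f h 12
    rw [mulF_12, mulF_12, mulF_12]; simp only [Pi.add_apply]; ring
  · show mulF f (g + h) 13 = mulF f g 13 + mulF f h 13
    rw [mulF_13, mulF_13, mulF_13]; simp only [Pi.add_apply]; ring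
  · show mulF f (g + h) 14 = mulF f g 14 + mulF f h 14
    rw [mulF_14, mulF_14, mulF_14]; simp only [Pi.add_apply]; ring
  · show mulF f (g + h) 15 = mulF f g 15 + mulF f h 15
    rw [mulF_15, mulF_15, mulF_15]; simp only [Pi.add_apply]; ring
  · show mulF f (g + h) 16 = mulF f g 16 + mulF f h 16
    rw [mulF_16, mulF_16, mulF_16]; simp only [Pi.add_apply]; ring
  · show mulF f (g + h) 17 = mulF f g 17 + mulF f h 17
    rw [mulF_17, mulF_17, mulF_17]; simp only [Pi.add_apply]; ring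
  · show mulF f (g + h) 18 = mulF f g 18 + mulF f h 18
    rw [mulF_18, mulF_18, mulF_18]; simp only [Pi.add_apply]; ring
  · show mulF f (g + h) 19 = mulF f g 19 + mulF f h 19
    rw [mulF_19, mulF_19, mulF_19]; simp only [Pi.add_apply]; ring
  · show mulF f (g + h) 20 = mulF f g 20 + mulF f h 20
    rw [mulF_20, mulF_20, mulF_20]; simp only [Pi.add_apply]; ring
  · show mulF f (g + h) 21 = mulF f g 21 + mulF f h 21
    rw [mulF_21, mulF_21, mulF_21]; simp only [Pi.add_apply]; ring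
  · show mulF f (g + h) 22 = mulF f g 22 + mulF f h 22
    rw [mulF_22, mulF_22, mulF_22]; simp only [Pi.add_apply]; ring
  · show mulF f (g + h) 23 = mulF f g 23 + mulF f h 23
    rw [mulF_23, mulF_23, mulF_23]; simp only [Pi.add_apply]; ring
  · show mulF f (g + h) 24 = mulF f g 24 + mulF f h 24
    rw [mulF_24, mulF_24, mulF_24]; simp only [Pi.add_apply]; ring
  · show mulF f (g + h) 25 = mulF f g 25 + mulF f h 25
    rw [mulF_25, mulF_25, mulF_25]; simp only [Pi.add_apply]; ring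
  · show mulF f (g + h) 26 = mulF f g 26 + mulF f h 26
    rw [mulF_26, mulF_26, mulF_26]; simp only [Pi.add_apply]; ring
  · show mulF f (g + h) 27 = mulF f g 27 + mulF f h 27
    rw [mulF_27, mulF_27, mulF_27]; simp only [Pi.add_apply]; ring
  · show mulF f (g + h) 28 = mulF f g 28 + mulF f h 28
    rw [mulF_28, mulF_28, mulF_28]; simp only [Pi.add_apply]; ring
  · show mulF f (g + h) 29 = mulF f g 29 + mulF f h 29
    rw [mulF_29, mulF_29, mulF_29]; simp only [Pi.add_apply]; ring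
  · show mulF f (g + h) 30 = mulF f g 30 + mulF f h 30
    rw [mulF_30, mulF_30, mulF_30]; simp only [Pi.add_apply]; ring
  · show mulF f (g + h) 31 = mulF f g 31 + mulF f h 31
    rw [mulF_31, mulF_31, mulF_31]; simp only [Pi.add_apply]; ring
  · show mulF f (g + h) 32 = mulF f g 32 + mulF f h 32
    rw [mulF_32, mulF_32, mulF_32]; simp only [Pi.add_apply]; ring
  · show mulF f (g + h) 33 = mulF f g 33 + mulF f h 33
    rw [mulF_33, mulF_33, mulF_33]; simp only [Pi.add_apply]; ring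
  · show mulF f (g + h) 34 = mulF f g 34 + mulF f h 34
    rw [mulF_34, mulF_34, mulF_34]; simp only [Pi.add_apply]; ring
  · show mulF f (g + h) 35 = mulF f g 35 + mulF f h 35
    rw [mulF_35, mulF_35, mulF_35]; simp only [Pi.add_apply]; ring
  · show mulF f (g + h) 36 = mulF f g 36 + mulF f h 36
    rw [mulF_36, mulF_36, mulF_36]; simp only [Pi.add_apply]; ring
  · show mulF f (g + h) 37 = mulF f g 37 + mulF f h 37
    rw [mulF_37, mulF_37, mulF_37]; simp only [Pi.add_apply]; ring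
  · show mulF f (g + h) 38 = mulF f g 38 + mulF f h 38
    rw [mulF_38, mulF_38, mulF_38]; simp only [Pi.add_apply]; ring
  · show mulF f (g + h) 39 = mulF f g 39 + mulF f h 39
    rw [mulF_39, mulF_39, mulF_39]; simp only [Pi.add_apply]; ring
  · show mulF f (g + h) 40 = mulF f g 40 + mulF f h 40
    rw [mulF_40, mulF_40, mulF_40]; simp only [Pi.add_apply]; ring
  · show mulF f (g + h) 41 = mulF f g 41 + mulF f h 41
    rw [mulF_41, mulF_41, mulF_41]; simp only [Pi.add_apply]; ring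
  · show mulF f (g + h) 42 = mulF f g 42 + mulF f h 42
    rw [mulF_42, mulF_42, mulF_42]; simp only [Pi.add_apply]; ring
  · show mulF f (g + h) 43 = mulF f g 43 + mulF f h 43
    rw [mulF_43, mulF_43, mulF_43]; simp only [Pi.add_apply]; ring
  · show mulF f (g + h) 44 = mulF f g 44 + mulF f h 44
    rw [mulF_44, mulF_44, mulF_44]; simp only [Pi.add_apply]; ring
  · show mulF f (g + h) 45 = mulF f g 45 + mulF f h 45
    rw [mulF_45, mulF_45, mulF_45]; simp only [Pi.add_apply]; ring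
  · show mulF f (g + h) 46 = mulF f g 46 + mulF f h 46
    rw [mulF_46, mulF_46, mulF_46]; simp only [Pi.add_apply]; ring
  · show mulF f (g + h) 47 = mulF f g 47 + mulF f h 47
    rw [mulF_47, mulF_47, mulF_47]; simp only [Pi.add_apply]; ring
  · show mulF f (g + h) 48 = mulF f g 48 + mulF f h 48
    rw [mulF_48, mulF_48, mulF_48]; simp only [Pi.add_apply]; ring

theorem mulF_smul {Φ : Type*} [CommRing Φ] [Algebra Φ K] (c : Φ) (f g : Fin 49 → K) :
    mulF f (c • g) = c • mulF f g := by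
  funext k
  fin_cases k
  · show mulF f (c • g) 0 = c • mulF f g 0
    rw [mulF_0, mulF_0]; simp
  · show mulF f (c • g) 1 = c • mulF f g 1
    rw [mulF_1, mulF_1]; simp
  · show mulF f (c • g) 2 = c • mulF f g 2
    rw [mulF_2, mulF_2]; simp
  · show mulF f (c • g) 3 = c • mulF f g 3
    rw [mulF_3, mulF_3]; simp
  · show mulF f (c • g) 4 = c • mulF f g 4
    rw [mulF_4, mulF_4]; simp
  · show mulF f (c • g) 5 = c • mulF f g 5
    rw [mulF_5, mulF_5]; simp
  · show mulF f (c • g) 6 = c • mulF f g 6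
    rw [mulF_6, mulF_6]; simp only [Pi.smul_apply, Algebra.smul_def]; ring
  · show mulF f (c • g) 7 = c • mulF f g 7
    rw [mulF_7, mulF_7]; simp only [Pi.smul_apply, Algebra.smul_def]; ring
  · show mulF f (c • g) 8 = c • mulF f g 8
    rw [mulF_8, mulF_8]; simp only [Pi.smul_apply, Algebra.smul_def]; ring
  · show mulF f (c • g) 9 = c • mulF f g 9
    rw [mulF_9, mulF_9]; simp only [Pi.smul_apply, Algebra.smul_def]; ring
  · show mulF f (c • g) 10 = c • mulF f g 10
    rw [mulF_10, mulF_10]; simp only [Pi.smul_apply, Algebra.smul_def]; ring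
  · show mulF f (c • g) 11 = c • mulF f g 11
    rw [mulF_11, mulF_11]; simp only [Pi.smul_apply, Algebra.smul_def]; ring
  · show mulF f (c • g) 12 = c • mulF f g 12
    rw [mulF_12, mulF_12]; simp only [Pi.smul_apply, Algebra.smul_def]; ring
  · show mulF f (c • g) 13 = c • mulF f g 13
    rw [mulF_13, mulF_13]; simp only [Pi.smul_apply, Algebra.smul_def]; ring
  · show mulF f (c • g) 14 = c • mulF f g 14
    rw [mulF_14, mulF_14]; simp only [Pi.smul_apply, Algebra.smul_def]; ring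
  · show mulF f (c • g) 15 = c • mulF f g 15
    rw [mulF_15, mulF_15]; simp only [Pi.smul_apply, Algebra.smul_def]; ring
  · show mulF f (c • g) 16 = c • mulF f g 16
    rw [mulF_16, mulF_16]; simp only [Pi.smul_apply, Algebra.smul_def]; ring
  · show mulF f (c • g) 17 = c • mulF f g 17
    rw [mulF_17, mulF_17]; simp only [Pi.smul_apply, Algebra.smul_def]; ring
  · show mulF f (c • g) 18 = c • mulF f g 18
    rw [mulF_18, mulF_18]; simp only [Pi.smul_apply, Algebra.smul_def]; ring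
  · show mulF f (c • g) 19 = c • mulF f g 19
    rw [mulF_19, mulF_19]; simp only [Pi.smul_apply, Algebra.smul_def]; ring
  · show mulF f (c • g) 20 = c • mulF f g 20
    rw [mulF_20, mulF_20]; simp only [Pi.smul_apply, Algebra.smul_def]; ring
  · show mulF f (c • g) 21 = c • mulF f g 21
    rw [mulF_21, mulF_21]; simp only [Pi.smul_apply, Algebra.smul_def]; ring
  · show mulF f (c • g) 22 = c • mulF f g 22
    rw [mulF_22, mulF_22]; simp only [Pi.smul_apply, Algebra.smul_def]; ring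
  · show mulF f (c • g) 23 = c • mulF f g 23
    rw [mulF_23, mulF_23]; simp only [Pi.smul_apply, Algebra.smul_def]; ring
  · show mulF f (c • g) 24 = c • mulF f g 24
    rw [mulF_24, mulF_24]; simp only [Pi.smul_apply, Algebra.smul_def]; ring
  · show mulF f (c • g) 25 = c • mulF f g 25
    rw [mulF_25, mulF_25]; simp only [Pi.smul_apply, Algebra.smul_def]; ring
  · show mulF f (c • g) 26 = c • mulF f g 26
    rw [mulF_26, mulF_26]; simp only [Pi.smul_apply, Algebra.smul_def]; ring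
  · show mulF f (c • g) 27 = c • mulF f g 27
    rw [mulF_27, mulF_27]; simp only [Pi.smul_apply, Algebra.smul_def]; ring
  · show mulF f (c • g) 28 = c • mulF f g 28
    rw [mulF_28, mulF_28]; simp only [Pi.smul_apply, Algebra.smul_def]; ring
  · show mulF f (c • g) 29 = c • mulF f g 29
    rw [mulF_29, mulF_29]; simp only [Pi.smul_apply, Algebra.smul_def]; ring
  · show mulF f (c • g) 30 = c • mulF f g 30
    rw [mulF_30, mulF_30]; simp only [Pi.smul_apply, Algebra.smul_def]; ring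
  · show mulF f (c • g) 31 = c • mulF f g 31
    rw [mulF_31, mulF_31]; simp only [Pi.smul_apply, Algebra.smul_def]; ring
  · show mulF f (c • g) 32 = c • mulF f g 32
    rw [mulF_32, mulF_32]; simp only [Pi.smul_apply, Algebra.smul_def]; ring
  · show mulF f (c • g) 33 = c • mulF f g 33
    rw [mulF_33, mulF_33]; simp only [Pi.smul_apply, Algebra.smul_def]; ring
  · show mulF f (c • g) 34 = c • mulF f g 34
    rw [mulF_34, mulF_34]; simp only [Pi.smul_apply, Algebra.smul_def]; ring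
  · show mulF f (c • g) 35 = c • mulF f g 35
    rw [mulF_35, mulF_35]; simp only [Pi.smul_apply, Algebra.smul_def]; ring
  · show mulF f (c • g) 36 = c • mulF f g 36
    rw [mulF_36, mulF_36]; simp only [Pi.smul_apply, Algebra.smul_def]; ring
  · show mulF f (c • g) 37 = c • mulF f g 37
    rw [mulF_37, mulF_37]; simp only [Pi.smul_apply, Algebra.smul_def]; ring
  · show mulF f (c • g) 38 = c • mulF f g 38
    rw [mulF_38, mulF_38]; simp only [Pi.smul_apply, Algebra.smul_def]; ring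
  · show mulF f (c • g) 39 = c • mulF f g 39
    rw [mulF_39, mulF_39]; simp only [Pi.smul_apply, Algebra.smul_def]; ring
  · show mulF f (c • g) 40 = c • mulF f g 40
    rw [mulF_40, mulF_40]; simp only [Pi.smul_apply, Algebra.smul_def]; ring
  · show mulF f (c • g) 41 = c • mulF f g 41
    rw [mulF_41, mulF_41]; simp only [Pi.smul_apply, Algebra.smul_def]; ring
  · show mulF f (c • g) 42 = c • mulF f g 42
    rw [mulF_42, mulF_42]; simp only [Pi.smul_apply, Algebra.smul_def]; ring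
  · show mulF f (c • g) 43 = c • mulF f g 43
    rw [mulF_43, mulF_43]; simp only [Pi.smul_apply, Algebra.smul_def]; ring
  · show mulF f (c • g) 44 = c • mulF f g 44
    rw [mulF_44, mulF_44]; simp only [Pi.smul_apply, Algebra.smul_def]; ring
  · show mulF f (c • g) 45 = c • mulF f g 45
    rw [mulF_45, mulF_45]; simp only [Pi.smul_apply, Algebra.smul_def]; ring
  · show mulF f (c • g) 46 = c • mulF f g 46
    rw [mulF_46, mulF_46]; simp only [Pi.smul_apply, Algebra.smul_def]; ring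
  · show mulF f (c • g) 47 = c • mulF f g 47
    rw [mulF_47, mulF_47]; simp only [Pi.smul_apply, Algebra.smul_def]; ring
  · show mulF f (c • g) 48 = c • mulF f g 48
    rw [mulF_48, mulF_48]; simp only [Pi.smul_apply, Algebra.smul_def]; ring

theorem mulF_add' (f g h : Fin 49 → K) : mulF (f + g) h = mulF f h + mulF g h := by
  rw [mulF_comm, mulF_add, mulF_comm h f, mulF_comm h g]

theorem mulF_zero (f : Fin 49 → K) : mulF f 0 = 0 := by
  have h : mulF f (0 + 0) = mulF f 0 + mulF f 0 := mulF_add f 0 0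
  rw [add_zero] at h
  exact left_eq_add.mp h

theorem zero_mulF (f : Fin 49 → K) : mulF 0 f = 0 := by
  rw [mulF_comm, mulF_zero]

theorem mulF_smul' {Φ : Type*} [CommRing Φ] [Algebra Φ K] (c : Φ) (f g : Fin 49 → K) :
    mulF (c • f) g = c • mulF f g := by
  rw [mulF_comm, mulF_smul, mulF_comm]

instance : NonUnitalNonAssocRing (Mo K) where
  mul f g := mulF f g
  left_distrib f g h := mulF_add f g h
  right_distrib f g h := mulF_add' f g h
  zero_mul f := zero_mulF f
  mul_zero f := mulF_zero f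

theorem Mo.mul_def (f g : Mo K) : f * g = mulF f g := rfl

theorem Mo.mul_comm' (f g : Mo K) : f * g = g * f := mulF_comm f g

theorem Mo.jac' (f g h : Mo K) : (f * g) * h + (g * h) * f + (h * f) * g = 0 := mulF_jac f g h

instance {Φ : Type*} [CommRing Φ] [Algebra Φ K] : IsScalarTower Φ (Mo K) (Mo K) where
  smul_assoc c f g := mulF_smul' c f g

instance {Φ : Type*} [CommRing Φ] [Algebra Φ K] : SMulCommClass Φ (Mo K) (Mo K) where
  smul_comm c f g := (mulF_smul c f g).symm

theorem Mo.three (h3 : (3 : K) = 0) (f : Mo K) : f + f + f = 0 := by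
  funext k
  show f k + f k + f k = 0
  linear_combination f k * h3

theorem Mo.left_alt (h3 : (3 : K) = 0) (f g : Mo K) : (f * f) * g = f * (f * g) := by
  have h := Mo.jac' f f g
  rw [Mo.mul_comm' g f, Mo.mul_comm' (f * g) f] at h
  have h' := Mo.three h3 (f * (f * g))
  have : f * f * g - f * (f * g) = (f * f * g + f * (f * g) + f * (f * g)) - (f * (f * g) + f * (f * g) + f * (f * g)) := by abel
  rw [h, h', sub_zero] at this
  exact sub_eq_zero.mp this

theorem Mo.right_alt (h3 : (3 : K) = 0) (f g : Mo K) : (g * f) * f = g * (f * f) := by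
  rw [Mo.mul_comm' (g * f) f, Mo.mul_comm' g (f * f), Mo.left_alt h3, Mo.mul_comm' g f]

/-- basis vectors -/
def bv (K : Type*) [CommRing K] (i : Fin 49) : Mo K := fun j => if j = i then 1 else 0

end Mo

section CommAlt
variable {R : Type*} [NonUnitalNonAssocRing R]

/-- `Σ ± (x,d,e)(a,b,c)` over the ten splittings of `{a,b,c,d,e}` -/
def tsum (a b c d e x : R) : R := as x d e * as a b c - as x c e * as a b d + as x c d * as a b e + as x b e * as a c d - as x b d * as a c e + as x b c * as a d e - as x a e * as b c d + as x a d * as b c e - as x a c * as b d e + as x a b * as c d e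

theorem tor_of_comm (hl : ∀ a b : R, (a * a) * b = a * (a * b))
    (hr : ∀ a b : R, (b * a) * a = b * (a * a)) (hc : ∀ a b : R, a * b = b * a)
    (a b c d e x : R) : tor a b c d e x = (-2 : ℤ) • tsum a b c d e x := by
  have hcm : ∀ u v : R, cm u v = 0 := fun u v => by simp [cm, hc u v]
  have h0 : ∀ u v w : R, as u 0 w = 0 ∧ as 0 u w = 0 ∧ as u v 0 = 0 := fun u v w => by simp [as]
  have hkf : ∀ u v w z : R, kf u v w z = 0 := fun u v w z => by
    rw [E2 hl hr, hcm, hcm]; simp [as]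
  have hhp : ∀ u v w z : R, hp 0 u v w z = 0 := fun u v w z => by
    simp only [hp, hkf, (h0 _ _ _).1, (h0 _ _ 0).2.1]
    simp [as]
  have hph : ∀ u v w : R, ph u v w = 0 := fun u v w => by simp [ph, hcm]
  simp only [tor, hkf, hcm, hhp, hph, tsum, smul_add, smul_sub]
  abel_nf

end CommAlt

section Eval

set_option maxRecDepth 1000000 in
theorem tsum_top_int : tsum (bv ℤ 0) (bv ℤ 1) (bv ℤ 3) (bv ℤ 2) (bv ℤ 4) (bv ℤ 5) 48 = (1 : ℤ) := by
  decide +kernel

end Eval

/-! ### Homomorphisms -/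

section Maps
variable {R S : Type*} [NonUnitalNonAssocRing R] [NonUnitalNonAssocRing S] (φ : R →ₙ+* S)

theorem map_as (a b c : R) : φ (as a b c) = as (φ a) (φ b) (φ c) := by
  simp only [as, map_sub, map_mul]

theorem map_cm (a b : R) : φ (cm a b) = cm (φ a) (φ b) := by
  simp only [cm, map_sub, map_mul]

theorem map_kf (a b c d : R) : φ (kf a b c d) = kf (φ a) (φ b) (φ c) (φ d) := by
  simp only [kf, map_sub, map_mul, map_as]

theorem map_hp (q x c d e : R) :
    φ (hp q x c d e) = hp (φ q) (φ x) (φ c) (φ d) (φ e) := by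
  simp only [hp, map_sub, map_add, map_mul, map_as, map_kf, map_cm, map_zsmul]

theorem map_ph (x c u : R) : φ (ph x c u) = ph (φ x) (φ c) (φ u) := by
  simp only [ph, map_sub, map_mul, map_cm]

theorem map_tor (a b c d e x : R) :
    φ (tor a b c d e x) = tor (φ a) (φ b) (φ c) (φ d) (φ e) (φ x) := by
  simp only [tor, map_sub, map_add, map_mul, map_as, map_kf, map_cm, map_hp, map_ph, map_zsmul]

theorem map_tsum (a b c d e x : R) :
    φ (tsum a b c d e x) = tsum (φ a) (φ b) (φ c) (φ d) (φ e) (φ x) := by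
  simp only [tsum, map_sub, map_add, map_mul, map_as]

end Maps

section Cast
variable (K : Type*) [CommRing K]

theorem mulF_cast (f g : Fin 49 → ℤ) (k : Fin 49) :
    ((mulF f g k : ℤ) : K) = mulF (fun i => (f i : K)) (fun i => (g i : K)) k := by
  fin_cases k
  · show ((mulF f g 0 : ℤ) : K) = mulF (fun i => (f i : K)) (fun i => (g i : K)) 0
    rw [mulF_0, mulF_0]; exact Int.cast_zero
  · show ((mulF f g 1 : ℤ) : K) = mulF (fun i => (f i : K)) (fun i => (g i : K)) 1
    rw [mulF_1, mulF_1]; exact Int.cast_zero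
  · show ((mulF f g 2 : ℤ) : K) = mulF (fun i => (f i : K)) (fun i => (g i : K)) 2
    rw [mulF_2, mulF_2]; exact Int.cast_zero
  · show ((mulF f g 3 : ℤ) : K) = mulF (fun i => (f i : K)) (fun i => (g i : K)) 3
    rw [mulF_3, mulF_3]; exact Int.cast_zero
  · show ((mulF f g 4 : ℤ) : K) = mulF (fun i => (f i : K)) (fun i => (g i : K)) 4
    rw [mulF_4, mulF_4]; exact Int.cast_zero
  · show ((mulF f g 5 : ℤ) : K) = mulF (fun i => (f i : K)) (fun i => (g i : K)) 5
    rw [mulF_5, mulF_5]; exact Int.cast_zero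
  · show ((mulF f g 6 : ℤ) : K) = mulF (fun i => (f i : K)) (fun i => (g i : K)) 6
    rw [mulF_6, mulF_6]; push_cast; ring
  · show ((mulF f g 7 : ℤ) : K) = mulF (fun i => (f i : K)) (fun i => (g i : K)) 7
    rw [mulF_7, mulF_7]; push_cast; ring
  · show ((mulF f g 8 : ℤ) : K) = mulF (fun i => (f i : K)) (fun i => (g i : K)) 8
    rw [mulF_8, mulF_8]; push_cast; ring
  · show ((mulF f g 9 : ℤ) : K) = mulF (fun i => (f i : K)) (fun i => (g i : K)) 9
    rw [mulF_9, mulF_9]; push_cast; ring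
  · show ((mulF f g 10 : ℤ) : K) = mulF (fun i => (f i : K)) (fun i => (g i : K)) 10
    rw [mulF_10, mulF_10]; push_cast; ring
  · show ((mulF f g 11 : ℤ) : K) = mulF (fun i => (f i : K)) (fun i => (g i : K)) 11
    rw [mulF_11, mulF_11]; push_cast; ring
  · show ((mulF f g 12 : ℤ) : K) = mulF (fun i => (f i : K)) (fun i => (g i : K)) 12
    rw [mulF_12, mulF_12]; push_cast; ring
  · show ((mulF f g 13 : ℤ) : K) = mulF (fun i => (f i : K)) (fun i => (g i : K)) 13
    rw [mulF_13, mulF_13]; push_cast; ring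
  · show ((mulF f g 14 : ℤ) : K) = mulF (fun i => (f i : K)) (fun i => (g i : K)) 14
    rw [mulF_14, mulF_14]; push_cast; ring
  · show ((mulF f g 15 : ℤ) : K) = mulF (fun i => (f i : K)) (fun i => (g i : K)) 15
    rw [mulF_15, mulF_15]; push_cast; ring
  · show ((mulF f g 16 : ℤ) : K) = mulF (fun i => (f i : K)) (fun i => (g i : K)) 16
    rw [mulF_16, mulF_16]; push_cast; ring
  · show ((mulF f g 17 : ℤ) : K) = mulF (fun i => (f i : K)) (fun i => (g i : K)) 17
    rw [mulF_17, mulF_17]; push_cast; ring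
  · show ((mulF f g 18 : ℤ) : K) = mulF (fun i => (f i : K)) (fun i => (g i : K)) 18
    rw [mulF_18, mulF_18]; push_cast; ring
  · show ((mulF f g 19 : ℤ) : K) = mulF (fun i => (f i : K)) (fun i => (g i : K)) 19
    rw [mulF_19, mulF_19]; push_cast; ring
  · show ((mulF f g 20 : ℤ) : K) = mulF (fun i => (f i : K)) (fun i => (g i : K)) 20
    rw [mulF_20, mulF_20]; push_cast; ring
  · show ((mulF f g 21 : ℤ) : K) = mulF (fun i => (f i : K)) (fun i => (g i : K)) 21
    rw [mulF_21, mulF_21]; push_cast; ring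
  · show ((mulF f g 22 : ℤ) : K) = mulF (fun i => (f i : K)) (fun i => (g i : K)) 22
    rw [mulF_22, mulF_22]; push_cast; ring
  · show ((mulF f g 23 : ℤ) : K) = mulF (fun i => (f i : K)) (fun i => (g i : K)) 23
    rw [mulF_23, mulF_23]; push_cast; ring
  · show ((mulF f g 24 : ℤ) : K) = mulF (fun i => (f i : K)) (fun i => (g i : K)) 24
    rw [mulF_24, mulF_24]; push_cast; ring
  · show ((mulF f g 25 : ℤ) : K) = mulF (fun i => (f i : K)) (fun i => (g i : K)) 25
    rw [mulF_25, mulF_25]; push_cast; ring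
  · show ((mulF f g 26 : ℤ) : K) = mulF (fun i => (f i : K)) (fun i => (g i : K)) 26
    rw [mulF_26, mulF_26]; push_cast; ring
  · show ((mulF f g 27 : ℤ) : K) = mulF (fun i => (f i : K)) (fun i => (g i : K)) 27
    rw [mulF_27, mulF_27]; push_cast; ring
  · show ((mulF f g 28 : ℤ) : K) = mulF (fun i => (f i : K)) (fun i => (g i : K)) 28
    rw [mulF_28, mulF_28]; push_cast; ring
  · show ((mulF f g 29 : ℤ) : K) = mulF (fun i => (f i : K)) (fun i => (g i : K)) 29
    rw [mulF_29, mulF_29]; push_cast; ring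
  · show ((mulF f g 30 : ℤ) : K) = mulF (fun i => (f i : K)) (fun i => (g i : K)) 30
    rw [mulF_30, mulF_30]; push_cast; ring
  · show ((mulF f g 31 : ℤ) : K) = mulF (fun i => (f i : K)) (fun i => (g i : K)) 31
    rw [mulF_31, mulF_31]; push_cast; ring
  · show ((mulF f g 32 : ℤ) : K) = mulF (fun i => (f i : K)) (fun i => (g i : K)) 32
    rw [mulF_32, mulF_32]; push_cast; ring
  · show ((mulF f g 33 : ℤ) : K) = mulF (fun i => (f i : K)) (fun i => (g i : K)) 33
    rw [mulF_33, mulF_33]; push_cast; ring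
  · show ((mulF f g 34 : ℤ) : K) = mulF (fun i => (f i : K)) (fun i => (g i : K)) 34
    rw [mulF_34, mulF_34]; push_cast; ring
  · show ((mulF f g 35 : ℤ) : K) = mulF (fun i => (f i : K)) (fun i => (g i : K)) 35
    rw [mulF_35, mulF_35]; push_cast; ring
  · show ((mulF f g 36 : ℤ) : K) = mulF (fun i => (f i : K)) (fun i => (g i : K)) 36
    rw [mulF_36, mulF_36]; push_cast; ring
  · show ((mulF f g 37 : ℤ) : K) = mulF (fun i => (f i : K)) (fun i => (g i : K)) 37
    rw [mulF_37, mulF_37]; push_cast; ring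
  · show ((mulF f g 38 : ℤ) : K) = mulF (fun i => (f i : K)) (fun i => (g i : K)) 38
    rw [mulF_38, mulF_38]; push_cast; ring
  · show ((mulF f g 39 : ℤ) : K) = mulF (fun i => (f i : K)) (fun i => (g i : K)) 39
    rw [mulF_39, mulF_39]; push_cast; ring
  · show ((mulF f g 40 : ℤ) : K) = mulF (fun i => (f i : K)) (fun i => (g i : K)) 40
    rw [mulF_40, mulF_40]; push_cast; ring
  · show ((mulF f g 41 : ℤ) : K) = mulF (fun i => (f i : K)) (fun i => (g i : K)) 41
    rw [mulF_41, mulF_41]; push_cast; ring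
  · show ((mulF f g 42 : ℤ) : K) = mulF (fun i => (f i : K)) (fun i => (g i : K)) 42
    rw [mulF_42, mulF_42]; push_cast; ring
  · show ((mulF f g 43 : ℤ) : K) = mulF (fun i => (f i : K)) (fun i => (g i : K)) 43
    rw [mulF_43, mulF_43]; push_cast; ring
  · show ((mulF f g 44 : ℤ) : K) = mulF (fun i => (f i : K)) (fun i => (g i : K)) 44
    rw [mulF_44, mulF_44]; push_cast; ring
  · show ((mulF f g 45 : ℤ) : K) = mulF (fun i => (f i : K)) (fun i => (g i : K)) 45
    rw [mulF_45, mulF_45]; push_cast; ring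
  · show ((mulF f g 46 : ℤ) : K) = mulF (fun i => (f i : K)) (fun i => (g i : K)) 46
    rw [mulF_46, mulF_46]; push_cast; ring
  · show ((mulF f g 47 : ℤ) : K) = mulF (fun i => (f i : K)) (fun i => (g i : K)) 47
    rw [mulF_47, mulF_47]; push_cast; ring
  · show ((mulF f g 48 : ℤ) : K) = mulF (fun i => (f i : K)) (fun i => (g i : K)) 48
    rw [mulF_48, mulF_48]; push_cast; ring

/-- coordinatewise cast -/
def castMo : Mo ℤ →ₙ+* Mo K where
  toFun f := fun i => ((f i : ℤ) : K)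
  map_mul' f g := by funext k; exact mulF_cast K f g k
  map_zero' := by funext k; exact Int.cast_zero
  map_add' f g := by funext k; exact Int.cast_add _ _

theorem castMo_bv (i : Fin 49) : castMo K (bv ℤ i) = bv K i := by
  funext j
  show (((if j = i then 1 else 0 : ℤ)) : K) = if j = i then 1 else 0
  split_ifs <;> simp

theorem tsum_top : tsum (bv K 0) (bv K 1) (bv K 3) (bv K 2) (bv K 4) (bv K 5) 48 = (1 : K) := by
  have h := map_tsum (castMo K) (bv ℤ 0) (bv ℤ 1) (bv ℤ 3) (bv ℤ 2) (bv ℤ 4) (bv ℤ 5)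
  simp only [castMo_bv] at h
  rw [← h]
  show ((tsum (bv ℤ 0) (bv ℤ 1) (bv ℤ 3) (bv ℤ 2) (bv ℤ 4) (bv ℤ 5) 48 : ℤ) : K) = 1
  rw [tsum_top_int]
  exact Int.cast_one

theorem tor_top (h3 : (3 : K) = 0) :
    tor (bv K 0) (bv K 1) (bv K 3) (bv K 2) (bv K 4) (bv K 5) 48 = (1 : K) := by
  rw [tor_of_comm (Mo.left_alt h3) (Mo.right_alt h3) Mo.mul_comm']
  have h := tsum_top K
  show ((-2 : ℤ) • (tsum (bv K 0) (bv K 1) (bv K 3) (bv K 2) (bv K 4) (bv K 5) 48 : K)) = 1
  rw [h]
  simp only [zsmul_eq_mul, mul_one]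
  push_cast
  linear_combination (-1 : K) * h3

end Cast

/-! ### The free alternative algebra -/

section Free

variable {Φ : Type u} [CommRing Φ] {X : Type v}

theorem tor_mem (a b c d e x : FreeNA Φ X) : (3 : ℤ) • tor a b c d e x ∈ altIdeal Φ X := by
  rw [altIdeal, Submodule.mem_sInf]
  rintro I ⟨h1, h2⟩
  let J : TwoSidedIdeal (FreeNA Φ X) := TwoSidedIdeal.mk' (I : Set (FreeNA Φ X)) I.zero_mem
    (fun {x y} hx hy => I.add_mem hx hy) (fun {x} hx => I.neg_mem hx)
    (fun {x y} hy => (h1 y hy x).1) (fun {x y} hx => (h1 x hx y).2)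
  have hJ : ∀ y, y ∈ J ↔ y ∈ I := fun y => TwoSidedIdeal.mem_mk' _ _ _ _ _ _ y
  let π : FreeNA Φ X →ₙ+* J.ringCon.Quotient :=
    { toFun := fun y => (y : J.ringCon.Quotient)
      map_mul' := fun _ _ => rfl
      map_zero' := rfl
      map_add' := fun _ _ => rfl }
  have hπ : ∀ y z, π y = π z ↔ y - z ∈ I := fun y z =>
    (RingCon.eq J.ringCon).trans ((TwoSidedIdeal.rel_iff J y z).trans (hJ _))
  have hs : Function.Surjective π := fun q => Quotient.inductionOn' q fun y => ⟨y, rfl⟩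
  have hl : ∀ u v : J.ringCon.Quotient, (u * u) * v = u * (u * v) := by
    intro u v
    obtain ⟨f, rfl⟩ := hs u
    obtain ⟨g, rfl⟩ := hs v
    rw [← map_mul, ← map_mul, ← map_mul, ← map_mul, hπ]
    exact (h2 f g).1
  have hr : ∀ u v : J.ringCon.Quotient, (v * u) * u = v * (u * u) := by
    intro u v
    obtain ⟨f, rfl⟩ := hs u
    obtain ⟨g, rfl⟩ := hs v
    rw [← map_mul, ← map_mul, ← map_mul, ← map_mul, hπ]
    exact (h2 f g).2
  have h := tor3 hl hr (π a) (π b) (π c) (π d) (π e) (π x)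
  rw [← map_tor, ← map_zsmul, ← map_zero π, hπ, sub_zero] at h
  exact h

variable {K : Type w} [CommRing K] [Algebra Φ K]

/-- the evaluation homomorphism into `Mo K` -/
noncomputable def ev (g : X → Mo K) : FreeNA Φ X →ₙₐ[Φ] Mo K :=
  MonoidAlgebra.liftMagma Φ (FreeMagma.lift g)

/-- the free generator `x` -/
noncomputable def gen (x : X) : FreeNA Φ X := MonoidAlgebra.ofMagma Φ (FreeMagma X) (FreeMagma.of x)

theorem ev_gen (g : X → Mo K) (x : X) : ev (Φ := Φ) g (gen x) = g x := by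
  simp [ev, gen]

theorem altIdeal_le (h3 : (3 : K) = 0) (g : X → Mo K) :
    altIdeal Φ X ≤ LinearMap.ker ((ev g : FreeNA Φ X →ₙₐ[Φ] Mo K) : FreeNA Φ X →ₗ[Φ] Mo K) := by
  refine sInf_le ⟨?_, ?_⟩
  · intro i hi a
    rw [LinearMap.mem_ker] at hi
    have hi' : ev g i = 0 := hi
    constructor
    · rw [LinearMap.mem_ker]
      show ev g (a * i) = 0
      rw [map_mul, hi', mul_zero]
    · rw [LinearMap.mem_ker]
      show ev g (i * a) = 0
      rw [map_mul, hi', zero_mul]
  · intro u v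
    constructor
    · rw [LinearMap.mem_ker]
      show ev g ((u * u) * v - u * (u * v)) = 0
      rw [map_sub, map_mul, map_mul, map_mul, map_mul, Mo.left_alt h3, sub_self]
    · rw [LinearMap.mem_ker]
      show ev g ((v * u) * u - v * (u * u)) = 0
      rw [map_sub, map_mul, map_mul, map_mul, map_mul, Mo.right_alt h3, sub_self]

/-- the top coordinate -/
def top : Mo K →ₗ[Φ] K := LinearMap.proj (R := Φ) (φ := fun _ : Fin 49 => K) 48

/-- the element `tor` at six generators -/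
noncomputable def T (Φ : Type u) [CommRing Φ] {X : Type v} (ι : Fin 6 ↪ X) : FreeNA Φ X :=
  tor (gen (ι 0)) (gen (ι 1)) (gen (ι 2)) (gen (ι 3)) (gen (ι 4)) (gen (ι 5))

/-- assignment of the generators -/
noncomputable def asg (K : Type w) [CommRing K] (ι : Fin 6 ↪ X) : X → Mo K :=
  Function.extend ι ![bv K 0, bv K 1, bv K 3, bv K 2, bv K 4, bv K 5] 0

theorem ev_T (h3 : (3 : K) = 0) (ι : Fin 6 ↪ X) :
    (top (Φ := Φ) (ev (asg K ι) (T Φ ι)) : K) = 1 := by
  have h := map_tor ((ev (asg K ι) : FreeNA Φ X →ₙₐ[Φ] Mo K) : FreeNA Φ X →ₙ+* Mo K)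
    (gen (ι 0)) (gen (ι 1)) (gen (ι 2)) (gen (ι 3)) (gen (ι 4)) (gen (ι 5))
  have e : ∀ j, ((ev (asg K ι) : FreeNA Φ X →ₙₐ[Φ] Mo K) : FreeNA Φ X →ₙ+* Mo K) (gen (ι j))
      = ![bv K 0, bv K 1, bv K 3, bv K 2, bv K 4, bv K 5] j := by
    intro j
    show ev (asg K ι) (gen (ι j)) = _
    rw [ev_gen, asg, ι.injective.extend_apply]
  have e0 := e 0
  have e1 := e 1
  have e2 := e 2
  have e3 := e 3
  have e4 := e 4
  have e5 := e 5
  simp only [Matrix.cons_val] at e0 e1 e2 e3 e4 e5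
  rw [e0, e1, e2, e3, e4, e5] at h
  have h1 : (((ev (asg K ι) : FreeNA Φ X →ₙₐ[Φ] Mo K) : FreeNA Φ X →ₙ+* Mo K) (T Φ ι)) 48 = (1 : K) := by
    rw [T, h]
    exact tor_top K h3
  exact h1

/-- induced linear map -/
noncomputable def Lam (Φ : Type u) [CommRing Φ] {K : Type w} [CommRing K] [Algebra Φ K]
    (h3 : (3 : K) = 0) (ι : Fin 6 ↪ X) : Alt Φ X →ₗ[Φ] K :=
  (altIdeal Φ X).liftQ (top.comp ((ev (asg K ι) : FreeNA Φ X →ₙₐ[Φ] Mo K) : FreeNA Φ X →ₗ[Φ] Mo K))
    (fun y hy => by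
      have := altIdeal_le (K := K) h3 (asg K ι) hy
      rw [LinearMap.mem_ker] at this ⊢
      rw [LinearMap.comp_apply, this, map_zero])

theorem Lam_T (h3 : (3 : K) = 0) (ι : Fin 6 ↪ X) :
    Lam Φ h3 ι ((altIdeal Φ X).mkQ (T Φ ι)) = (1 : K) := by
  rw [Lam, Submodule.mkQ_apply, Submodule.liftQ_apply]
  exact ev_T h3 ι

theorem three_T (ι : Fin 6 ↪ X) : (3 : ℤ) • ((altIdeal Φ X).mkQ (T Φ ι)) = 0 := by
  rw [← map_zsmul, Submodule.mkQ_apply, Submodule.Quotient.mk_eq_zero]
  exact tor_mem _ _ _ _ _ _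

theorem free_imp (Φ : Type u) [CommRing Φ] (X : Type v) (ι : Fin 6 ↪ X)
    [Module.Free Φ (Alt Φ X)] : ∃ v : Φ, (3 : Φ) = 9 * v := by
  classical
  let b := Module.Free.chooseBasis Φ (Alt Φ X)
  set t : Alt Φ X := (altIdeal Φ X).mkQ (T Φ ι) with ht
  have h3K : (3 : Φ ⧸ Ideal.span {(3 : Φ)}) = 0 := by
    have : (Ideal.Quotient.mk (Ideal.span {(3 : Φ)})) 3 = 0 :=
      Ideal.Quotient.eq_zero_iff_mem.mpr (Ideal.mem_span_singleton_self _)
    rwa [map_ofNat] at this
  let L := Lam Φ h3K ι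
  have hL : L t = 1 := Lam_T h3K ι
  have h3t : (3 : Φ) • t = 0 := by
    have := three_T (Φ := Φ) ι
    rw [← ht] at this
    have e : (3 : ℤ) • t = (3 : Φ) • t := by
      rw [← Int.cast_smul_eq_zsmul Φ 3 t]; norm_num
    rw [← e]; exact this
  have hc : ∀ i, (3 : Φ) * b.repr t i = 0 := by
    intro i
    have := congrArg (fun z => b.repr z i) h3t
    simpa using this
  choose r hr using fun i => Ideal.Quotient.mk_surjective (L (b i))
  have hsum : (Ideal.Quotient.mk (Ideal.span {(3 : Φ)}))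
      ((b.repr t).sum fun i c => c * r i) = 1 := by
    rw [← hL]
    conv_rhs => rw [← b.linearCombination_repr t]
    rw [Finsupp.linearCombination_apply, Finsupp.sum, Finsupp.sum, map_sum, map_sum]
    refine Finset.sum_congr rfl fun i _ => ?_
    rw [map_mul, hr, map_smul, Algebra.smul_def]
    rfl
  have hmem : 1 - ((b.repr t).sum fun i c => c * r i) ∈ Ideal.span {(3 : Φ)} := by
    rw [← Ideal.Quotient.eq_zero_iff_mem, map_sub, hsum, map_one, sub_self]
  obtain ⟨v, hv⟩ := Ideal.mem_span_singleton'.mp hmem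
  have hz : (3 : Φ) * ((b.repr t).sum fun i c => c * r i) = 0 := by
    rw [Finsupp.mul_sum]
    refine Finset.sum_eq_zero fun i _ => ?_
    show (3 : Φ) * (b.repr t i * r i) = 0
    rw [← mul_assoc, hc, zero_mul]
  refine ⟨v, ?_⟩
  linear_combination hz - 3 * hv

theorem result :
    (∀ (X : Type v), Nonempty (Fin 6 ↪ X) →
      ∃ f : Alt ℤ X, f ≠ 0 ∧ (3 : ℤ) • f = 0) ∧
    (∀ (Φ : Type u) [CommRing Φ] (X : Type v), Nonempty (Fin 6 ↪ X) →
      Module.Free Φ (Alt Φ X) → ∃ r : Φ, (3 : Φ) = 9 * r) ∧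
    ¬ Module.Free ℤ (Alt ℤ ℕ) := by
  refine ⟨?_, ?_, ?_⟩
  · rintro X ⟨ι⟩
    refine ⟨(altIdeal ℤ X).mkQ (T ℤ ι), ?_, three_T ι⟩
    intro h0
    have h := Lam_T (Φ := ℤ) (K := ZMod 3) (by decide) ι
    rw [h0, map_zero] at h
    exact absurd h (by decide)
  · rintro Φ _ X ⟨ι⟩ hf
    exact free_imp Φ X ι
  · intro hf
    obtain ⟨r, hr⟩ := free_imp ℤ ℕ ⟨fun i => (i : ℕ), Fin.val_injective⟩
    omega

end Free

end Pool.Agent.Results.MP_2692c1_al.FreeAlternativeTorsion
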